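import Mathlib

/-!
# Cohomology of a filtered colimit of complexes
-/

open CategoryTheory Limits

namespace W507.Wrap

universe v u v' u'

variable {C : Type u} [Category.{v} C] [Abelian C] {J : Type u'} [Category.{v'} J]
  [HasColimitsOfShape J C] [HasExactColimitsOfShape J C]

theorem exact_of_evaluation (S : ShortComplex (J ⥤ C))
    (h : ∀ j, (S.map ((evaluation J C).obj j)).Exact) : S.Exact := by
  rw [ShortComplex.exact_iff_isZero_homology]
  apply Functor.isZero
  intro j
  have h1 := (ShortComplex.exact_iff_isZero_homology _).mp (h j)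
  exact h1.of_iso (S.mapHomologyIso ((evaluation J C).obj j)).symm

/-- the diagram of cycles -/
noncomputable def cycSC (E : J ⥤ CochainComplex C ℤ) (n : ℤ) : ShortComplex (J ⥤ C) where
  X₁ := E ⋙ HomologicalComplex.cyclesFunctor C (ComplexShape.up ℤ) n
  X₂ := E ⋙ HomologicalComplex.eval C (ComplexShape.up ℤ) n
  X₃ := E ⋙ HomologicalComplex.eval C (ComplexShape.up ℤ) (n + 1)
  f := { app := fun j => (E.obj j).iCycles n
         naturality := by intro i j a; dsimp; exact HomologicalComplex.cyclesMap_i _ _ }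
  g := { app := fun j => (E.obj j).d n (n + 1)
         naturality := by intro i j a; dsimp; exact (E.map a).comm _ _ }
  zero := by
    ext j
    exact (E.obj j).iCycles_d n (n + 1)

theorem cycSC_exact (E : J ⥤ CochainComplex C ℤ) (n : ℤ) : (cycSC E n).Exact := by
  apply exact_of_evaluation
  intro j
  have h1 : IsLimit (KernelFork.ofι ((E.obj j).iCycles n) ((E.obj j).iCycles_d n (n + 1))) :=
    (E.obj j).cyclesIsKernel n (n + 1) (by simp)
  exact ShortComplex.exact_of_f_is_kernel _ h1

theorem homology_colimit_hom_eq_zero (E : J ⥤ CochainComplex C ℤ) [HasColimit E] (n : ℤ) {Y : C}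
    (φ : (colimit E).homology n ⟶ Y)
    (h : ∀ j, HomologicalComplex.homologyMap (colimit.ι E j) n ≫ φ = 0) : φ = 0 := by
  let K := colimit E
  let F2 := HomologicalComplex.eval C (ComplexShape.up ℤ) n
  let F3 := HomologicalComplex.eval C (ComplexShape.up ℤ) (n + 1)
  let c2 : Cocone (cycSC E n).X₂ := F2.mapCocone (colimit.cocone E)
  let c3 : Cocone (cycSC E n).X₃ := F3.mapCocone (colimit.cocone E)
  have hc2 : IsColimit c2 := isColimitOfPreserves F2 (colimit.isColimit E)
  have hc3 : IsColimit c3 := isColimitOfPreserves F3 (colimit.isColimit E)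
  let c1 : Cocone (cycSC E n).X₁ := colimit.cocone _
  have hc1 : IsColimit c1 := colimit.isColimit _
  let q : c1.pt ⟶ K.cycles n := colimit.desc (cycSC E n).X₁
    ((HomologicalComplex.cyclesFunctor C (ComplexShape.up ℤ) n).mapCocone (colimit.cocone E))
  have hq : ∀ j, c1.ι.app j ≫ q = HomologicalComplex.cyclesMap (colimit.ι E j) n :=
    fun j => colimit.ι_desc _ _
  have hf : ∀ j, c1.ι.app j ≫ (q ≫ K.iCycles n) = (cycSC E n).f.app j ≫ c2.ι.app j := by
    intro j
    rw [← Category.assoc, hq]
    exact HomologicalComplex.cyclesMap_i _ _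
  have hg : ∀ j, c2.ι.app j ≫ K.d n (n + 1) = (cycSC E n).g.app j ≫ c3.ι.app j := by
    intro j
    exact (colimit.ι E j).comm _ _
  have hex := colim.exact_mapShortComplex (cycSC_exact E n) hc1 hc2 hc3
    (q ≫ K.iCycles n) (K.d n (n + 1)) hf hg
  have hker : IsLimit (KernelFork.ofι (K.iCycles n) (K.iCycles_d n (n + 1))) :=
    K.cyclesIsKernel n (n + 1) (by simp)
  have hq2 : Epi q := by
    rw [ShortComplex.exact_iff_epi_kernel_lift] at hex
    let a : K.cycles n ⟶ kernel (K.d n (n + 1)) :=
      kernel.lift _ (K.iCycles n) (K.iCycles_d n (n + 1))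
    have ha : a ≫ kernel.ι (K.d n (n + 1)) = K.iCycles n := kernel.lift_ι _ _ _
    have h2 : q ≫ a = kernel.lift (K.d n (n + 1)) (q ≫ K.iCycles n)
        (by rw [Category.assoc, K.iCycles_d, comp_zero]) := by
      rw [← cancel_mono (kernel.ι (K.d n (n + 1))), kernel.lift_ι, Category.assoc, ha]
    have h3 : Epi (q ≫ a) := by
      rw [h2]
      exact hex
    have h4 : Epi a := epi_of_epi q a
    have h5 : Mono a := by
      have : Mono (a ≫ kernel.ι (K.d n (n + 1))) := by
        rw [ha]
        infer_instance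
      exact mono_of_mono a (kernel.ι (K.d n (n + 1)))
    have h6 : IsIso a := isIso_of_mono_of_epi a
    have h7 : q = (q ≫ a) ≫ inv a := by rw [Category.assoc, IsIso.hom_inv_id, Category.comp_id]
    rw [h7]
    exact epi_comp _ _
  have h6 : ∀ j, HomologicalComplex.cyclesMap (colimit.ι E j) n ≫ K.homologyπ n ≫ φ = 0 := by
    intro j
    have h5 : HomologicalComplex.cyclesMap (colimit.ι E j) n ≫ K.homologyπ n =
        (E.obj j).homologyπ n ≫ HomologicalComplex.homologyMap (colimit.ι E j) n :=
      (HomologicalComplex.homologyπ_naturality _ _).symm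
    rw [← Category.assoc, h5, Category.assoc, h j, comp_zero]
  rw [← cancel_epi (K.homologyπ n), ← cancel_epi q, comp_zero, comp_zero]
  apply hc1.hom_ext
  intro j
  rw [comp_zero, ← Category.assoc, hq]
  exact h6 j

end W507.Wrap
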