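import Mathlib

/-!
# Generalities on the derived category: truncation and objects with one cohomology
-/

open CategoryTheory Limits Abelian DerivedCategory Pretriangulated Triangulated

namespace W507.Wrap

universe w w' v u

variable {C : Type u} [Category.{v} C] [Abelian C] [HasDerivedCategory.{w} C]

/-- truncation triangles with the comparison of cohomology -/
theorem exists_trunc (K : DerivedCategory C) (n : ℤ) :
    ∃ (A B : DerivedCategory C) (_ : A.IsLE n) (_ : B.IsGE (n + 1)) (f : A ⟶ K) (g : K ⟶ B)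
      (h : B ⟶ A⟦(1 : ℤ)⟧), Triangle.mk f g h ∈ distTriang (DerivedCategory C) ∧
      (∀ i, i ≤ n → IsIso ((homologyFunctor C i).map f)) ∧
      (∀ i, n + 1 ≤ i → IsIso ((homologyFunctor C i).map g)) := by
  obtain ⟨A, B, hA, hB, f, g, h, hT⟩ := (TStructure.t (C := C)).exists_triangle K n (n + 1) rfl
  have hA' : A.IsLE n := ⟨hA⟩
  have hB' : B.IsGE (n + 1) := ⟨hB⟩
  have zA : ∀ i, n < i → IsZero ((homologyFunctor C i).obj A) := fun i hi => isZero_of_isLE A n i hi
  have zB : ∀ i, i < n + 1 → IsZero ((homologyFunctor C i).obj B) :=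
    fun i hi => isZero_of_isGE B (n + 1) i hi
  refine ⟨A, B, hA', hB', f, g, h, hT, ?_, ?_⟩
  · intro i hi
    have h1 : Epi ((homologyFunctor C i).map f) :=
      (HomologySequence.epi_homologyMap_mor₁_iff _ hT i).mpr ((zB i (by lia)).eq_of_tgt _ _)
    have h2 : Mono ((homologyFunctor C i).map f) :=
      (HomologySequence.mono_homologyMap_mor₁_iff _ hT (i - 1) i (by lia)).mpr
        ((zB (i - 1) (by lia)).eq_of_src _ _)
    exact isIso_of_mono_of_epi _
  · intro i hi
    have h1 : Mono ((homologyFunctor C i).map g) :=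
      (HomologySequence.mono_homologyMap_mor₂_iff _ hT i).mpr ((zA i (by lia)).eq_of_src _ _)
    have h2 : Epi ((homologyFunctor C i).map g) :=
      (HomologySequence.epi_homologyMap_mor₂_iff _ hT i (i + 1) (by lia)).mpr
        ((zA (i + 1) (by lia)).eq_of_tgt _ _)
    exact isIso_of_mono_of_epi _

/-- an object with cohomology in one degree only -/
theorem exists_single_iso (K : DerivedCategory C) (n : ℤ) [K.IsGE n] [K.IsLE n] :
    ∃ Y : C, Nonempty (K ≅ (singleFunctor C n).obj Y) ∧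
      Nonempty (Y ≅ (homologyFunctor C n).obj K) := by
  obtain ⟨Y, ⟨e⟩⟩ := exists_iso_singleFunctor_obj_of_isGE_of_isLE K n
  exact ⟨Y, ⟨e⟩, ⟨((singleFunctorCompHomologyFunctorIso C n).app Y).symm ≪≫
    (homologyFunctor C n).mapIso e.symm⟩⟩

theorem homology_single_iso (Y : C) (n : ℤ) :
    Nonempty ((homologyFunctor C n).obj ((singleFunctor C n).obj Y) ≅ Y) :=
  ⟨(singleFunctorCompHomologyFunctorIso C n).app Y⟩

theorem homology_single_isZero (Y : C) (n i : ℤ) (h : i ≠ n) :
    IsZero ((homologyFunctor C i).obj ((singleFunctor C n).obj Y)) := by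
  rcases lt_or_gt_of_ne h with h | h
  · exact isZero_of_isGE _ n i h
  · exact isZero_of_isLE _ n i h

theorem coyo {A K B S : DerivedCategory C} {i : A ⟶ K} {p : K ⟶ B} {d : B ⟶ A⟦(1 : ℤ)⟧}
    (hT : Triangle.mk i p d ∈ distTriang (DerivedCategory C)) (f : S ⟶ K) (h : f ≫ p = 0) :
    ∃ g : S ⟶ A, g ≫ i = f := by
  obtain ⟨g, hg⟩ := Triangle.coyoneda_exact₂ _ hT f h
  exact ⟨g, hg.symm⟩

theorem yo {A K B S : DerivedCategory C} {i : A ⟶ K} {p : K ⟶ B} {d : B ⟶ A⟦(1 : ℤ)⟧}
    (hT : Triangle.mk i p d ∈ distTriang (DerivedCategory C)) (f : K ⟶ S) (h : i ≫ f = 0) :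
    ∃ g : B ⟶ S, p ≫ g = f := by
  obtain ⟨g, hg⟩ := Triangle.yoneda_exact₂ _ hT f h
  exact ⟨g, hg.symm⟩

variable [HasExt.{w'} C]

/-- the identification of shifted single objects -/
noncomputable def shIso (Y : C) (n : ℕ) (m : ℤ) (hm : (n : ℤ) + m = 0) :
    ((singleFunctor C 0).obj Y)⟦(n : ℤ)⟧ ≅ (singleFunctor C m).obj Y :=
  ((singleFunctors C).shiftIso n m 0 hm).app Y

/-- morphisms from an object in degree zero to an object in degree `-n` are extensions -/
theorem single_hom_eq_zero_of_ext {S Y : C} (n : ℕ) (m : ℤ) (hm : (n : ℤ) + m = 0)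
    (h : ∀ e : Ext.{w'} S Y n, e = 0) (f : (singleFunctor C 0).obj S ⟶ (singleFunctor C m).obj Y) :
    f = 0 := by
  have key : ∀ g : ShiftedHom ((singleFunctor C 0).obj S) ((singleFunctor C 0).obj Y) (n : ℤ),
      g = 0 := by
    intro g
    obtain ⟨x, hx⟩ : ∃ x : Ext.{w'} S Y n, x.hom = g := Ext.homEquiv.surjective g
    rw [← hx, h x, Ext.zero_hom]
  have h1 : f ≫ (shIso Y n m hm).inv = 0 := key _
  rw [← cancel_mono (shIso Y n m hm).inv, h1, zero_comp]

/-- conversely, a non-zero extension gives a non-zero morphism -/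
theorem ext_eq_zero_of_single {S Y : C} (n : ℕ) (m : ℤ) (hm : (n : ℤ) + m = 0)
    (h : ∀ f : (singleFunctor C 0).obj S ⟶ (singleFunctor C m).obj Y, f = 0)
    (x : Ext.{w'} S Y n) : x = 0 := by
  have key : ∀ g : (singleFunctor C 0).obj S ⟶ ((singleFunctor C 0).obj Y)⟦(n : ℤ)⟧,
      g = 0 := by
    intro g
    have h1 : g ≫ (shIso Y n m hm).hom = 0 := h _
    rw [← cancel_mono (shIso Y n m hm).hom, h1, zero_comp]
  apply Ext.ext
  rw [Ext.zero_hom]
  exact key _

end W507.Wrap
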