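import Pool.Agent.W507.Wrap.Ses

/-!
# Extensions of the skyscraper sheaf
-/

open CategoryTheory TopologicalSpace Opposite TopCat Limits Abelian

namespace W507.Wrap

variable {X : TopCat.{0}} [T1Space X]

/-- sections over small punctured neighbourhoods of `x` extend over `x`, after shrinking -/
def Extendable (F : Sh X) (x : X) : Prop :=
  ∀ (W : Opens X), x ∈ W → ∀ s : F.1.obj (op (W ⊓ cpl x)),
    ∃ (W' : Opens X) (h : W' ≤ W), x ∈ W' ∧ ∃ t : F.1.obj (op W'),
      res F (inf_le_left : W' ⊓ cpl x ≤ W') t =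
        res F (inf_le_inf_right _ h : W' ⊓ cpl x ≤ W ⊓ cpl x) s

theorem exists_lift_of_extendable {x : X} {S : ShortComplex (Sh X)} (hS : S.ShortExact)
    (hE : Extendable S.X₁ x) (b : sky x ⟶ S.X₃) : ∃ a : sky x ⟶ S.X₂, a ≫ S.g = b := by
  have := hS.mono_f
  have := hS.epi_g
  obtain ⟨U, hUtop, hxU, t, ht⟩ := exists_local_lift S.g (sec b ⊤ (skySec x ⊤)) (x := x)
    (U := ⊤) trivial
  -- the restriction of t to the punctured neighbourhood comes from X₁
  have h0 : sec S.g (U ⊓ cpl x) (res S.X₂ inf_le_left t) = 0 := by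
    rw [sec_res, ht, res_res]
    have h1 := sky_hom_res b
    have h2 := congrArg (res S.X₃ (inf_le_right : U ⊓ cpl x ≤ cpl x)) h1
    rw [res_res, map_zero] at h2
    exact h2
  obtain ⟨l, hl⟩ := exists_of_sec_eq_zero hS.exact _ h0
  obtain ⟨W', hW', hxW', m, hm⟩ := hE U hxU l
  -- the difference is supported at x
  let d : S.X₂.1.obj (op W') := res S.X₂ hW' t - sec S.f W' m
  have hd : res S.X₂ (inf_le_left : W' ⊓ cpl x ≤ W') d = 0 := by
    rw [map_sub, ← sec_res, hm, res_res, sec_res, hl, res_res, sub_self]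
  obtain ⟨e, he1, he2⟩ := exists_ext0 S.X₂ hxW' d hd
  refine ⟨skyLift e he2, ?_⟩
  apply sky_hom_ext
  rw [sec_comp, skyLift_sec]
  apply eq_of_res2 S.X₃ (le_top : W' ≤ ⊤) (le_top : cpl x ≤ ⊤)
  · intro y _
    by_cases h : y = x
    · left; rw [h]; exact hxW'
    · right; exact h
  · rw [← sec_res, he1]
    change sec S.g W' (res S.X₂ hW' t - sec S.f W' m) = _
    have hz : sec S.g W' (sec S.f W' m) = 0 := by
      rw [← sec_comp, S.zero]
      rfl
    rw [map_sub, hz, sub_zero, sec_res, ht, res_res]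
  · rw [← sec_res, he2, map_zero]
    exact (sky_hom_res b).symm

/-- vanishing of the first extension group -/
theorem ext1_eq_zero {x : X} {F : Sh X} (hE : Extendable F x) (e : Ext (sky x) F 1) : e = 0 := by
  have hS := shortExact_coker (Injective.ι F)
  have h1 : e.comp (Ext.mk₀ (Injective.ι F)) (add_zero 1) = 0 := Ext.eq_zero_of_injective _
  obtain ⟨b, hb⟩ := Ext.covariant_sequence_exact₁ (sky x) hS e h1 (zero_add 1)
  obtain ⟨b', rfl⟩ := (Ext.mk₀_bijective _ _).2 b
  obtain ⟨a, ha⟩ := exists_lift_of_extendable hS hE b'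
  rw [← hb, ← ha, ← Ext.mk₀_comp_mk₀, Ext.comp_assoc_of_second_deg_zero]
  dsimp
  rw [hS.comp_extClass, Ext.comp_zero]

end W507.Wrap
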