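import Pool.Agent.W507.Wrap.Main

/-!
# The wrapped skyscraper sheaf on an elliptic curve is not a colimit of constructible complexes
-/

open CategoryTheory TopologicalSpace Opposite TopCat Limits Abelian DerivedCategory
open scoped Topology

namespace W507.Wrap

universe w

/-- lattices are infinite -/
theorem infinite_of_compact (L : AddSubgroup ℂ) [DiscreteTopology L] [CompactSpace (ℂ ⧸ L)] :
    Infinite L := by
  by_cases h : L = ⊥
  · exfalso
    have hinj : Function.Injective (QuotientAddGroup.mk : ℂ → ℂ ⧸ L) := by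
      intro a b hab
      have h1 : -a + b ∈ L := QuotientAddGroup.eq.mp hab
      rw [h, AddSubgroup.mem_bot, neg_add_eq_sub, sub_eq_zero] at h1
      exact h1.symm
    let e : ℂ ≃ₜ (ℂ ⧸ L) := (Equiv.ofBijective _ ⟨hinj, QuotientAddGroup.mk_surjective⟩).toHomeomorphOfContinuousOpen
      QuotientAddGroup.continuous_mk QuotientAddGroup.isOpenMap_coe
    have : CompactSpace ℂ := e.symm.compactSpace
    exact not_compactSpace_iff.mpr (inferInstance : NoncompactSpace ℂ) this
  · obtain ⟨⟨l, hl⟩, hne'⟩ := AddSubgroup.ne_bot_iff_exists_ne_zero.mp h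
    have hne : l ≠ 0 := fun e => hne' (Subtype.ext e)
    refine Infinite.of_injective (fun n : ℤ => (⟨n • l, L.zsmul_mem hl n⟩ : L)) ?_
    intro m n hmn
    have h1 : m • l = n • l := congrArg Subtype.val hmn
    have h2 : (m : ℂ) * l = (n : ℂ) * l := by simpa using h1
    exact_mod_cast mul_right_cancel₀ hne h2

variable {L : AddSubgroup ℂ} [DiscreteTopology L] [HasDerivedCategory.{w} (Sh (Tor L))]

/-- no constructible approximation for an object whose cohomology in degree `-2` maps
non-trivially to the regular local system: systems in the derived category -/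
theorem no_cocone [Infinite L] {W : DerivedCategory (Sh (Tor L))} {n : ℤ}
    (hW : ∃ φ : (homologyFunctor (Sh (Tor L)) n).obj W ⟶ regSh L, φ ≠ 0)
    {J : Type} [SmallCategory J] (E : J ⥤ DerivedCategory (Sh (Tor L))) (c : Cocone E)
    (hE : ∀ j, IsCConstrObj (E.obj j))
    (hc : Nonempty (IsColimit ((homologyFunctor (Sh (Tor L)) n).mapCocone c))) :
    IsEmpty (c.pt ≅ W) := by
  constructor
  intro e
  obtain ⟨φ, hφ⟩ := hW
  obtain ⟨hc⟩ := hc
  apply hφ
  rw [← cancel_epi ((homologyFunctor (Sh (Tor L)) n).map e.hom), comp_zero]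
  apply hc.hom_ext
  intro j
  rw [comp_zero]
  exact hom_regSh_eq_zero ((hE j).constr n) _

/-- the same for filtered systems of complexes -/
theorem no_colimit [Infinite L] {W : DerivedCategory (Sh (Tor L))} {n : ℤ}
    (hW : ∃ φ : (homologyFunctor (Sh (Tor L)) n).obj W ⟶ regSh L, φ ≠ 0)
    {J : Type} [SmallCategory J] [IsFiltered J] (E : J ⥤ CochainComplex (Sh (Tor L)) ℤ)
    (hE : ∀ j, IsCConstrObj (Q.obj (E.obj j))) :
    IsEmpty (Q.obj (colimit E) ≅ W) := by
  constructor
  intro e
  obtain ⟨φ, hφ⟩ := hW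
  apply hφ
  let a : (homologyFunctor (Sh (Tor L)) n).obj (Q.obj (colimit E)) ≅ (colimit E).homology n :=
    (homologyFunctorFactors (Sh (Tor L)) n).app (colimit E)
  let b : (homologyFunctor (Sh (Tor L)) n).obj (Q.obj (colimit E)) ≅
    (homologyFunctor (Sh (Tor L)) n).obj W := (homologyFunctor (Sh (Tor L)) n).mapIso e
  have key : a.inv ≫ b.hom ≫ φ = 0 := by
    apply homology_colimit_hom_eq_zero E n
    intro j
    let aj : (homologyFunctor (Sh (Tor L)) n).obj (Q.obj (E.obj j)) ≅ (E.obj j).homology n :=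
      (homologyFunctorFactors (Sh (Tor L)) n).app (E.obj j)
    rw [← cancel_epi aj.hom, comp_zero]
    exact hom_regSh_eq_zero ((hE j).constr n) _
  rw [← cancel_epi b.hom, ← cancel_epi a.inv, key, comp_zero, comp_zero]

omit [HasDerivedCategory.{w} (Sh (Tor L))] in
/-- the regular local system is non-zero -/
theorem regSh_ne_zero : (𝟙 (regSh L) : regSh L ⟶ regSh L) ≠ 0 := by
  intro h
  obtain ⟨e, he⟩ := exists_ext2_ne_zero (L := L) (pr L 0)
  apply he
  rw [← Ext.comp_mk₀_id e, h, Ext.mk₀_zero, Ext.comp_zero]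

/-- transport of the universal property along an isomorphism -/
theorem IsWrapping.of_iso {X : TopCat.{0}} [HasDerivedCategory.{w} (Sh X)]
    {K K' W : DerivedCategory (Sh X)} {u : K ⟶ W} (hu : IsWrapping u) (e : K' ≅ K) :
    IsWrapping (e.hom ≫ u) where
  locConst := hu.locConst
  universal V hV f := by
    obtain ⟨g, hg, huniq⟩ := hu.universal V hV (e.inv ≫ f)
    refine ⟨g, ?_, ?_⟩
    · change (e.hom ≫ u) ≫ g = f
      rw [Category.assoc, hg, e.hom_inv_id_assoc]
    · intro g' hg'
      have hg'' : (e.hom ≫ u) ≫ g' = f := hg'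
      apply huniq
      change u ≫ g' = e.inv ≫ f
      rw [← hg'', Category.assoc, e.inv_hom_id_assoc]

theorem wrapping_hom_ne_zero {x : Tor L} {W : DerivedCategory (Sh (Tor L))}
    {u : (singleFunctor (Sh (Tor L)) 0).obj (skyM x) ⟶ W} (hu : IsWrapping u) :
    ∃ φ : (homologyFunctor (Sh (Tor L)) (-2)).obj W ⟶ regSh L, φ ≠ 0 := by
  obtain ⟨e⟩ := exists_iso_skyM x
  exact exists_hom_ne_zero (punct L x) regSh_isLocConst (exists_ext2_ne_zero x)
    (hu.of_iso ((singleFunctor (Sh (Tor L)) 0).mapIso e))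

theorem regSh_single_hom_ne_zero :
    ∃ φ : (homologyFunctor (Sh (Tor L)) (-2)).obj ((singleFunctor (Sh (Tor L)) (-2)).obj (regSh L)) ⟶
      regSh L, φ ≠ 0 := by
  obtain ⟨e⟩ := homology_single_iso (regSh L) (-2)
  refine ⟨e.hom, fun h => regSh_ne_zero (L := L) ?_⟩
  rw [← e.inv_hom_id, h, comp_zero]

end W507.Wrap
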