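import Mathlib

/-!
# Sheaves of functions with values in complex vector spaces
-/

open CategoryTheory TopologicalSpace Opposite TopCat Limits

namespace W507.Wrap

/-- sheaves of complex vector spaces on a topological space -/
abbrev Sh (X : TopCat.{0}) := TopCat.Sheaf (ModuleCat.{0} ℂ) X

variable {X : TopCat.{0}} (N : X → Type) [∀ x, AddCommGroup (N x)] [∀ x, Module ℂ (N x)]

/-- restriction of dependent functions -/
def resFun {U V : Opens X} (h : U ≤ V) : (∀ y : V, N y) →ₗ[ℂ] (∀ y : U, N y) where
  toFun f := fun y => f ⟨y.1, h y.2⟩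
  map_add' _ _ := rfl
  map_smul' _ _ := rfl

/-- a local submodule condition on dependent functions -/
structure LocSub where
  S : ∀ U : Opens X, Submodule ℂ (∀ y : U, N y)
  res : ∀ {U V : Opens X} (h : U ≤ V) (f : ∀ y : V, N y), f ∈ S V → resFun N h f ∈ S U
  loc : ∀ {U : Opens X} (f : ∀ y : U, N y),
    (∀ y ∈ U, ∃ (V : Opens X) (h : V ≤ U), y ∈ V ∧ resFun N h f ∈ S V) → f ∈ S U

variable {N}

/-- the presheaf of sections -/
def LocSub.presheaf (P : LocSub N) : TopCat.Presheaf (ModuleCat.{0} ℂ) X where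
  obj U := ModuleCat.of ℂ (P.S U.unop)
  map {U V} i := ModuleCat.ofHom
    ((resFun N i.unop.le).restrict (fun f hf => P.res i.unop.le f hf))
  map_id U := by ext; rfl
  map_comp f g := by ext; rfl

theorem LocSub.presheaf_isSheaf (P : LocSub N) : P.presheaf.IsSheaf := by
  rw [TopCat.Presheaf.isSheaf_iff_isSheafUniqueGluing]
  intro ι U sf hsf
  have key : ∀ (i j : ι) (y : X) (hi : y ∈ U i) (hj : y ∈ U j),
      (show P.S (U i) from sf i).1 ⟨y, hi⟩ = (show P.S (U j) from sf j).1 ⟨y, hj⟩ := by
    intro i j y hi hj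
    have h := hsf i j
    have h2 := congrArg Subtype.val (show (show P.S (U i ⊓ U j) from _) = _ from h)
    exact congrFun h2 ⟨y, ⟨hi, hj⟩⟩
  choose index hindex using fun y : ↑(iSup U) => Opens.mem_iSup.mp y.2
  let f : ∀ y : ↑(iSup U), N y := fun y => (show P.S (U (index y)) from sf (index y)).1 ⟨y.1, hindex y⟩
  have hf : f ∈ P.S (iSup U) := by
    apply P.loc
    intro y hy
    obtain ⟨i, hi⟩ := Opens.mem_iSup.mp hy
    refine ⟨U i, le_iSup U i, hi, ?_⟩
    have : resFun N (le_iSup U i) f = (show P.S (U i) from sf i).1 := by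
      funext z
      exact key _ _ _ _ _
    rw [this]
    exact (show P.S (U i) from sf i).2
  refine ⟨(⟨f, hf⟩ : P.S (iSup U)), ?_, ?_⟩
  · intro i
    apply Subtype.ext
    funext z
    exact key _ _ _ _ _
  · intro g hg
    apply Subtype.ext
    funext y
    have h := hg (index y)
    have h2 := congrArg Subtype.val (show (show P.S (U (index y)) from _) = _ from h)
    exact congrFun h2 ⟨y.1, hindex y⟩

/-- the sheaf of sections -/
def LocSub.sheaf (P : LocSub N) : Sh X := ⟨P.presheaf, P.presheaf_isSheaf⟩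

variable (N) in
/-- all functions -/
def LocSub.all : LocSub N where
  S _ := ⊤
  res _ _ _ := trivial
  loc _ _ := trivial

/-- inclusion of sheaves of functions -/
def LocSub.incl {P Q : LocSub N} (h : ∀ U, P.S U ≤ Q.S U) : P.sheaf ⟶ Q.sheaf where
  hom :=
    { app := fun U => ModuleCat.ofHom (Submodule.inclusion (h U.unop))
      naturality := by intro U V i; ext; rfl }

end W507.Wrap
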