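import Pool.Agent.W507.Wrap.Ext1

/-!
# The sheaf of discontinuous sections, and non-vanishing of extension groups
-/

open CategoryTheory TopologicalSpace Opposite TopCat Limits Abelian

namespace W507.Wrap

variable {X : TopCat.{0}}

/-- the germ of a section -/
noncomputable def grm (F : Sh X) {U : Opens X} (y : X) (hy : y ∈ U) :
    F.1.obj (op U) →ₗ[ℂ] (F.presheaf.stalk y) := (F.presheaf.germ U y hy).hom

theorem grm_res (F : Sh X) {U V : Opens X} (h : U ≤ V) (y : X) (hy : y ∈ U)
    (s : F.1.obj (op V)) : grm F y hy (res F h s) = grm F y (h hy) s :=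
  TopCat.Presheaf.germ_res_apply F.presheaf (homOfLE h) y hy s

theorem exists_res_eq_of_grm (F : Sh X) {U V : Opens X} (y : X) (hU : y ∈ U) (hV : y ∈ V)
    (s : F.1.obj (op U)) (t : F.1.obj (op V)) (h : grm F y hU s = grm F y hV t) :
    ∃ (W : Opens X) (h1 : W ≤ U) (h2 : W ≤ V), y ∈ W ∧ res F h1 s = res F h2 t := by
  obtain ⟨W, hW, i1, i2, h⟩ := TopCat.Presheaf.germ_eq F.presheaf y hU hV s t h
  exact ⟨W, i1.le, i2.le, hW, h⟩

theorem exists_grm_eq (F : Sh X) (y : X) (t : F.presheaf.stalk y) :
    ∃ (U : Opens X) (hy : y ∈ U) (s : F.1.obj (op U)), grm F y hy s = t :=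
  TopCat.Presheaf.exists_germ_eq F.presheaf t

theorem ext_grm (F : Sh X) {U : Opens X} (s t : F.1.obj (op U))
    (h : ∀ (y : X) (hy : y ∈ U), grm F y hy s = grm F y hy t) : s = t := by
  apply eq_of_loc
  intro y hy
  obtain ⟨W, h1, h2, hyW, h⟩ := exists_res_eq_of_grm F y hy hy s t (h y hy)
  exact ⟨W, h1, hyW, h⟩

/-- the sheaf of discontinuous sections -/
noncomputable def god (F : Sh X) : Sh X :=
  (LocSub.all (fun y : X => (F.presheaf.stalk y : Type))).sheaf

/-- the canonical embedding -/
noncomputable def godι (F : Sh X) : F ⟶ god F where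
  hom :=
    { app := fun U => ModuleCat.ofHom
        { toFun := fun s => (⟨fun y => grm F y.1 y.2 s, trivial⟩ :
            (LocSub.all (fun y : X => (F.presheaf.stalk y : Type))).S U.unop)
          map_add' := by
            intro a b
            apply Subtype.ext
            funext y
            exact map_add _ _ _
          map_smul' := by
            intro c a
            apply Subtype.ext
            funext y
            exact map_smul _ _ _ }
      naturality := by
        intro U V i
        ext s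
        apply Subtype.ext
        funext y
        exact grm_res F i.unop.le y.1 y.2 s }

theorem mono_of_sec_injective {F G : Sh X} (f : F ⟶ G)
    (h : ∀ U, Function.Injective (sec f U)) : Mono f := by
  constructor
  intro H a b hab
  apply hom_ext_sec
  intro U s
  apply h U
  rw [← sec_comp, ← sec_comp, hab]

instance (F : Sh X) : Mono (godι F) := by
  apply mono_of_sec_injective
  intro U s t hst
  apply ext_grm
  intro y hy
  have := congrArg Subtype.val hst
  exact congrFun this ⟨y, hy⟩

variable [T1Space X]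

open Classical in
theorem god_extend (F : Sh X) (x : X) (U : Opens X) (g : (god F).1.obj (op (U ⊓ cpl x))) :
    ∃ g' : (god F).1.obj (op U), res (god F) inf_le_left g' = g := by
  let g0 : ∀ y : ↥(U ⊓ cpl x), (F.presheaf.stalk y.1 : Type) :=
    (show (LocSub.all (fun y : X => (F.presheaf.stalk y : Type))).S (U ⊓ cpl x) from g).1
  let g1 : ∀ y : U, (F.presheaf.stalk y.1 : Type) := fun y =>
    if h : y.1 = x then (0 : (F.presheaf.stalk y.1 : Type)) else g0 ⟨y.1, ⟨y.2, h⟩⟩
  refine ⟨(⟨g1, trivial⟩ : (LocSub.all (fun y : X => (F.presheaf.stalk y : Type))).S U), ?_⟩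
  apply Subtype.ext
  funext y
  have hy : y.1 ≠ x := (show y.1 ∈ U ⊓ cpl x from y.2).2
  have hyU : y.1 ∈ U := (show y.1 ∈ U ⊓ cpl x from y.2).1
  change (if h : y.1 = x then (0 : (F.presheaf.stalk y.1 : Type)) else g0 ⟨y.1, ⟨hyU, h⟩⟩) = g0 y
  exact dif_neg hy

/-- if the first extension group vanishes then sections over punctured neighbourhoods extend -/
theorem extend_of_ext1 {x : X} {F : Sh X} (h0 : ∀ e : Ext (sky x) F 1, e = 0) (U : Opens X)
    (hx : x ∈ U) (s : F.1.obj (op (U ⊓ cpl x))) :
    ∃ t : F.1.obj (op U), res F inf_le_left t = s := by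
  have hS := shortExact_coker (godι F)
  obtain ⟨g, hg⟩ := god_extend F x U (sec (godι F) _ s)
  have hz : ∀ V (q : F.1.obj (op V)), sec (cokernel.π (godι F)) V (sec (godι F) V q) = 0 := by
    intro V q
    rw [← sec_comp, cokernel.condition]
    rfl
  let r := sec (cokernel.π (godι F)) U g
  have hr : res _ (inf_le_left : U ⊓ cpl x ≤ U) r = 0 := by
    rw [← sec_res, hg, hz]
  obtain ⟨r', hr1, hr2⟩ := exists_ext0 _ hx r hr
  let b := skyLift r' hr2
  have hb : (Ext.mk₀ b).comp hS.extClass (zero_add 1) = 0 := h0 _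
  obtain ⟨a', ha'⟩ := Ext.covariant_sequence_exact₃ (sky x) hS (Ext.mk₀ b) (zero_add 1) hb
  obtain ⟨a, rfl⟩ := (Ext.mk₀_bijective _ _).2 a'
  have ha : a ≫ cokernel.π (godι F) = b := by
    apply (Ext.mk₀_bijective _ _).1
    rw [← Ext.mk₀_comp_mk₀]
    exact ha'
  let c := sec a ⊤ (skySec x ⊤)
  have hc : res (god F) (le_top : cpl x ≤ ⊤) c = 0 := sky_hom_res a
  have hcπ : sec (cokernel.π (godι F)) ⊤ c = r' := by
    rw [← sec_comp, ha, skyLift_sec]
  have h3 : sec (cokernel.π (godι F)) U (g - res (god F) le_top c) = 0 := by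
    rw [map_sub, sec_res, hcπ, hr1, sub_self]
  obtain ⟨t, ht⟩ := exists_of_sec_eq_zero hS.exact (S := ShortComplex.mk (godι F)
    (cokernel.π (godι F)) (cokernel.condition (godι F))) _ h3
  refine ⟨t, ?_⟩
  apply sec_injective_of_mono (godι F)
  have ht' : sec (godι F) U t = g - res (god F) le_top c := ht
  rw [sec_res, ht', map_sub, hg, res_res]
  have : res (god F) (inf_le_left.trans le_top : U ⊓ cpl x ≤ ⊤) c = 0 := by
    rw [← res_res (god F) (inf_le_right : U ⊓ cpl x ≤ cpl x) le_top, hc, map_zero]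
  rw [this, sub_zero]

end W507.Wrap
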