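import Pool.Agent.W507.Wrap.God

/-!
# Locally constant sheaves: sections over punctured neighbourhoods
-/

open CategoryTheory TopologicalSpace Opposite TopCat Limits Abelian
open scoped Topology

namespace W507.Wrap

variable {X : TopCat.{0}}

/-- the sheaf `F` is constant on a neighbourhood of `x`: there is an open neighbourhood `U` such
that `F(U) → F_y` is bijective for all `y ∈ U` -/
def IsConstNear (F : Sh X) (x : X) : Prop :=
  ∃ U : Opens X, x ∈ U ∧ ∀ (y : X) (hy : y ∈ U), Function.Bijective (F.presheaf.germ U y hy)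

/-- locally constant sheaves -/
def IsLocConst (F : Sh X) : Prop := ∀ x : X, IsConstNear F x

theorem IsConstNear.exists {F : Sh X} {x : X} (h : IsConstNear F x) :
    ∃ U : Opens X, x ∈ U ∧ ∀ (y : X) (hy : y ∈ U), Function.Bijective (grm F y hy) := h

theorem IsConstNear.of_iso {F G : Sh X} (e : F ≅ G) {x : X} (h : IsConstNear F x) :
    IsConstNear G x := by
  obtain ⟨U, hxU, h⟩ := h
  refine ⟨U, hxU, fun y hy => ?_⟩
  have e1 : IsIso (e.hom.1.app (op U)) := by
    have : e.hom.1.app (op U) = (((Sheaf.forget (ModuleCat.{0} ℂ) X).mapIso e).app (op U)).hom := rfl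
    rw [this]
    infer_instance
  have e2 : IsIso ((TopCat.Presheaf.stalkFunctor (ModuleCat.{0} ℂ) y).map e.hom.1) := by
    have : (TopCat.Presheaf.stalkFunctor (ModuleCat.{0} ℂ) y).map e.hom.1 =
      ((TopCat.Presheaf.stalkFunctor (ModuleCat.{0} ℂ) y).mapIso
        ((Sheaf.forget (ModuleCat.{0} ℂ) X).mapIso e)).hom := rfl
    rw [this]
    infer_instance
  have b1 : Function.Bijective (sec e.hom U) := (ConcreteCategory.isIso_iff_bijective _).mp e1
  have b2 := (ConcreteCategory.isIso_iff_bijective _).mp e2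
  have h2 := TopCat.Presheaf.stalkFunctor_map_germ (C := ModuleCat.{0} ℂ) U y hy e.hom.1
  rw [← Function.Bijective.of_comp_iff _ b1]
  have h3 : (ConcreteCategory.hom (G.presheaf.germ U y hy)) ∘ (sec e.hom U) =
      (ConcreteCategory.hom ((TopCat.Presheaf.stalkFunctor (ModuleCat.{0} ℂ) y).map e.hom.1)) ∘
        (ConcreteCategory.hom (F.presheaf.germ U y hy)) := by
    funext s
    exact (congrArg (fun q => q.hom s) h2).symm
  rw [h3]
  exact b2.comp (h y hy)

/-- a locally constant function on a preconnected set is constant -/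
theorem const_of_preconnected {α β : Type*} [TopologicalSpace α] {C : Set α}
    (hC : IsPreconnected C) (f : α → β) (h : ∀ z ∈ C, ∀ᶠ w in 𝓝[C] z, f w = f z) {z w : α}
    (hz : z ∈ C) (hw : w ∈ C) : f z = f w := by
  have : PreconnectedSpace C := isPreconnected_iff_preconnectedSpace.mp hC
  have hf : IsLocallyConstant (fun y : C => f y.1) := by
    rw [IsLocallyConstant.iff_eventually_eq]
    intro y
    have := h y.1 y.2
    rw [eventually_nhdsWithin_iff] at this
    rw [nhds_subtype_eq_comap, Filter.eventually_comap]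
    filter_upwards [this] with a ha b hb
    rw [← hb] at ha
    exact ha b.2
  exact hf.apply_eq_of_preconnectedSpace ⟨z, hz⟩ ⟨w, hw⟩

variable [T1Space X]

/-- small connected punctured neighbourhoods -/
def Punct (x : X) : Prop :=
  ∀ W : Opens X, x ∈ W → ∃ W' : Opens X, W' ≤ W ∧ x ∈ W' ∧
    IsPreconnected ((W' ⊓ cpl x : Opens X) : Set X) ∧ ((W' ⊓ cpl x : Opens X) : Set X).Nonempty

theorem extendable_of_isConstNear {x : X} (hx : Punct x) {F : Sh X} (hF : IsConstNear F x) :
    Extendable F x := by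
  intro W hxW s
  obtain ⟨U, hxU, hU⟩ := hF.exists
  obtain ⟨W', hW', hxW', hc, ⟨y0, hy0⟩⟩ := hx (W ⊓ U) ⟨hxW, hxU⟩
  have hWW : W' ≤ W := hW'.trans inf_le_left
  have hWU : W' ≤ U := hW'.trans inf_le_right
  have hP : W' ⊓ cpl x ≤ W ⊓ cpl x := inf_le_inf_right _ hWW
  refine ⟨W', hWW, hxW', ?_⟩
  have hex : ∀ y : X, ∃ t : F.1.obj (op U), ∀ (hy : y ∈ W' ⊓ cpl x),
      grm F y (hWU hy.1) t = grm F y hy (res F hP s) := by
    intro y
    by_cases hy : y ∈ W' ⊓ cpl x
    · obtain ⟨t, ht⟩ := (hU y (hWU hy.1)).2 (grm F y hy (res F hP s))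
      exact ⟨t, fun _ => ht⟩
    · exact ⟨0, fun h => absurd h hy⟩
  choose t ht using hex
  have hconst : ∀ y ∈ ((W' ⊓ cpl x : Opens X) : Set X), t y0 = t y := by
    intro y hy
    apply const_of_preconnected hc t _ hy0 hy
    intro z hz
    -- near z, the section s agrees with the section t z
    obtain ⟨V, h1, h2, hzV, h⟩ := exists_res_eq_of_grm F z (hWU hz.1) hz (t z) (res F hP s) (ht z hz)
    have : ∀ᶠ w in 𝓝 z, w ∈ V := V.isOpen.mem_nhds hzV
    filter_upwards [mem_nhdsWithin_of_mem_nhds this, self_mem_nhdsWithin] with w hwV hw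
    apply (hU w (hWU hw.1)).1
    rw [ht w hw]
    have := congrArg (grm F w hwV) h
    rw [grm_res, grm_res] at this
    exact this.symm
  refine ⟨res F hWU (t y0), ?_⟩
  apply ext_grm
  intro y hy
  rw [grm_res, grm_res, hconst y hy]
  exact ht y hy

theorem hom_sky_eq_zero {x : X} (hx : Punct x) {F : Sh X} (hF : IsConstNear F x)
    (f : sky x ⟶ F) : f = 0 := by
  apply sky_hom_ext
  have h0 : sec (0 : sky x ⟶ F) ⊤ (skySec x ⊤) = 0 := rfl
  rw [h0]
  obtain ⟨U, hxU, hU⟩ := hF.exists
  obtain ⟨W', hW', hxW', hc, ⟨y0, hy0⟩⟩ := hx U hxU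
  have h1 := sky_hom_res f
  apply eq_of_res2 F (le_top : U ≤ ⊤) (le_top : cpl x ≤ ⊤)
  · intro y _
    by_cases h : y = x
    · left; rw [h]; exact hxU
    · right; exact h
  · apply (hU y0 (hW' hy0.1)).1
    rw [map_zero, map_zero, grm_res]
    have := congrArg (grm F y0 hy0.2) h1
    rw [grm_res, map_zero] at this
    exact this
  · rw [h1, map_zero]

end W507.Wrap
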