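import Pool.Agent.W507.Wrap.Sky

/-!
# Comparison with the skyscraper sheaf of the library
-/

open CategoryTheory TopologicalSpace Opposite TopCat Limits

namespace W507.Wrap

variable {X : TopCat.{0}}

theorem isIso_of_sec_bijective {F G : Sh X} (f : F ⟶ G)
    (h : ∀ U, Function.Bijective (sec f U)) : IsIso f := by
  have h1 : ∀ U : (Opens X)ᵒᵖ, IsIso (((Sheaf.forget (ModuleCat.{0} ℂ) X).map f).app U) := by
    intro U
    exact (ConcreteCategory.isIso_iff_bijective _).mpr (h U.unop)
  have h2 : IsIso ((Sheaf.forget (ModuleCat.{0} ℂ) X).map f) :=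
    (NatTrans.isIso_iff_isIso_app _).mpr h1
  exact isIso_of_fully_faithful (Sheaf.forget (ModuleCat.{0} ℂ) X) f

open Classical in
/-- the skyscraper sheaf with stalk the complex numbers (library version) -/
noncomputable def skyM (x : X) : Sh X := skyscraperSheaf x (ModuleCat.of ℂ ℂ)

open Classical in
theorem skyM_obj_of_mem {x : X} {U : Opens X} (h : x ∈ U) :
    (skyM x).1.obj (op U) = ModuleCat.of ℂ ℂ := if_pos h

open Classical in
theorem skyM_subsingleton {x : X} {U : Opens X} (h : x ∉ U) :
    Subsingleton ((skyM x).1.obj (op U)) := by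
  have h1 : (skyM x).1.obj (op U) = ⊤_ (ModuleCat.{0} ℂ) := if_neg h
  rw [h1]
  exact ModuleCat.subsingleton_of_isZero (isZero_zero _ |>.of_iso
    (terminalIsoIsTerminal (isZero_zero (ModuleCat.{0} ℂ)).isTerminal))

/-- the identification of the sections -/
noncomputable def skyMEquiv {x : X} {U : Opens X} (h : x ∈ U) :
    (skyM x).1.obj (op U) ≅ ModuleCat.of ℂ ℂ := eqToIso (skyM_obj_of_mem h)

open Classical in
theorem skyMEquiv_res {x : X} {U V : Opens X} (hU : x ∈ U) (hV : x ∈ V) (hUV : U ≤ V)
    (s : (skyM x).1.obj (op V)) :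
    (skyMEquiv hU).hom (res (skyM x) hUV s) = (skyMEquiv hV).hom s := by
  have h1 : (skyM x).1.map (homOfLE hUV).op ≫ (skyMEquiv hU).hom = (skyMEquiv hV).hom := by
    have : (skyM x).1.map (homOfLE hUV).op = eqToHom (by
      rw [skyM_obj_of_mem hU, skyM_obj_of_mem hV]) := by
      change (skyscraperPresheaf x (ModuleCat.of ℂ ℂ)).map (homOfLE hUV).op = _
      exact dif_pos hU
    rw [this]
    simp [skyMEquiv]
  exact congrArg (fun q => q.hom s) h1

variable [T1Space X]

theorem exists_iso_skyM (x : X) : Nonempty (sky x ≅ skyM x) := by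
  let s : (skyM x).1.obj (op ⊤) := (skyMEquiv (x := x) (U := ⊤) trivial).inv (1 : ℂ)
  have hs : res (skyM x) (le_top : cpl x ≤ ⊤) s = 0 := by
    have := skyM_subsingleton (x := x) (U := cpl x) (by simp [mem_cpl])
    exact Subsingleton.elim _ _
  let f := skyLift s hs
  have hf : sec f ⊤ (skySec x ⊤) = s := skyLift_sec s hs
  have h : IsIso f := by
    apply isIso_of_sec_bijective
    intro U
    by_cases hU : x ∈ U
    · have key : ∀ c : ℂ, (skyMEquiv hU).hom (sec f U (c • skySec x U)) = c := by
        intro c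
        rw [map_smul, ← res_skySec x (le_top : U ≤ ⊤), sec_res, hf]
        have h1 : (skyMEquiv hU).hom (res (skyM x) (le_top : U ≤ ⊤) s) = (1 : ℂ) := by
          have hT : x ∈ (⊤ : Opens X) := trivial
          rw [skyMEquiv_res hU hT]
          exact congrArg (fun q => q.hom (1:ℂ)) (skyMEquiv (x := x) (U := ⊤) trivial).inv_hom_id
        have h2 : (skyMEquiv hU).hom (c • res (skyM x) (le_top : U ≤ ⊤) s) =
            c • (skyMEquiv hU).hom (res (skyM x) (le_top : U ≤ ⊤) s) := map_smul _ _ _
        rw [h2, h1]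
        exact mul_one c
      constructor
      · intro a b hab
        obtain ⟨c, rfl⟩ := sky_eq_smul x a
        obtain ⟨d, rfl⟩ := sky_eq_smul x b
        have := congrArg (skyMEquiv hU).hom hab
        rw [key, key] at this
        rw [this]
      · intro t
        refine ⟨((skyMEquiv hU).hom t : ℂ) • skySec x U, ?_⟩
        have h3 : Function.Injective (skyMEquiv hU).hom :=
          (ConcreteCategory.bijective_of_isIso (skyMEquiv hU).hom).1
        apply h3
        exact key _
    · have h1 := skyM_subsingleton hU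
      have h2 : Subsingleton ((sky x).1.obj (op U)) := by
        constructor
        intro a b
        obtain ⟨c, rfl⟩ := sky_eq_smul x a
        obtain ⟨d, rfl⟩ := sky_eq_smul x b
        rw [skySec_eq_zero x hU, smul_zero, smul_zero]
      exact ⟨fun a b _ => Subsingleton.elim _ _, fun t => ⟨0, Subsingleton.elim _ _⟩⟩
  exact ⟨asIso f⟩

end W507.Wrap
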