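import Pool.Agent.W507.Wrap.Reg3
import Pool.Agent.W507.Wrap.Der
import Pool.Agent.W507.Wrap.Colim
import Pool.Agent.W507.Wrap.SkyIso

/-!
# Wrapped skyscraper sheaves on complex tori of dimension one
-/

open CategoryTheory TopologicalSpace Opposite TopCat Limits Abelian DerivedCategory
open Pretriangulated Triangulated
open scoped Topology

namespace W507.Wrap

universe w

variable {X : TopCat.{0}} [HasDerivedCategory.{w} (Sh X)]

/-- all cohomology sheaves are locally constant, i.e. the microsupport is contained in the zero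
section -/
def LocConstCoh (K : DerivedCategory (Sh X)) : Prop :=
  ∀ n : ℤ, IsLocConst ((homologyFunctor (Sh X) n).obj K)

/-- bounded complexes with constructible cohomology sheaves -/
structure IsCConstrObj (K : DerivedCategory (Sh X)) : Prop where
  bounded : ∃ a b : ℤ, ∀ n : ℤ, (n < a ∨ b < n) → IsZero ((homologyFunctor (Sh X) n).obj K)
  constr : ∀ n : ℤ, IsCConstr ((homologyFunctor (Sh X) n).obj K)

/-- `u : K ⟶ W` exhibits `W` as the wrapping of `K` into the objects with locally constant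
cohomology sheaves, i.e. as the value at `K` of the left adjoint of the inclusion -/
structure IsWrapping {K W : DerivedCategory (Sh X)} (u : K ⟶ W) : Prop where
  locConst : LocConstCoh W
  universal : ∀ V : DerivedCategory (Sh X), LocConstCoh V → ∀ f : K ⟶ V, ∃! g : W ⟶ V, u ≫ g = f

omit [HasDerivedCategory.{w} (Sh X)] in
theorem isConstNear_of_isZero {F : Sh X} (h : IsZero F) (x : X) : IsConstNear F x := by
  have h1 : ∀ U : Opens X, Subsingleton (F.1.obj (op U)) := by
    intro U
    constructor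
    intro a b
    have h2 : 𝟙 F = 0 := (IsZero.iff_id_eq_zero F).mp h
    have h3 : ∀ s : F.1.obj (op U), s = 0 := by
      intro s
      have : sec (𝟙 F) U s = sec (0 : F ⟶ F) U s := by rw [h2]
      exact this
    rw [h3 a, h3 b]
  refine ⟨⊤, trivial, fun y hy => ⟨fun a b _ => ?_, fun t => ?_⟩⟩
  · have := h1 ⊤
    exact Subsingleton.elim _ _
  · obtain ⟨U, hU, s, hs⟩ := exists_grm_eq F y t
    have := h1 U
    refine ⟨0, ?_⟩
    have h4 : t = 0 := by
      rw [← hs, Subsingleton.elim s 0, map_zero]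
    rw [h4, map_zero]

omit [HasDerivedCategory.{w} (Sh X)] in
theorem isLocConst_of_iso {F G : Sh X} (e : F ≅ G) (h : IsLocConst F) : IsLocConst G :=
  fun x => (h x).of_iso e

theorem locConstCoh_single {P : Sh X} (hP : IsLocConst P) (m : ℤ) :
    LocConstCoh ((singleFunctor (Sh X) m).obj P) := by
  intro n
  by_cases h : n = m
  · subst h
    obtain ⟨e⟩ := homology_single_iso P n
    exact isLocConst_of_iso e.symm hP
  · exact fun x => isConstNear_of_isZero (homology_single_isZero P m n h) x

variable [T1Space X]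

/-- there are no morphisms from the skyscraper to objects with locally constant cohomology in
degrees at least `-1` -/
theorem sky_hom_eq_zero {x : X} (hx : Punct x) {K : DerivedCategory (Sh X)}
    (hK : LocConstCoh K) [K.IsGE (-1)] (f : (singleFunctor (Sh X) 0).obj (sky x) ⟶ K) : f = 0 := by
  obtain ⟨A, B, hA, hB, i, p, d, hT, hi, hp⟩ := exists_trunc K (-1)
  have hB0 : B.IsGE 0 := hB
  obtain ⟨A', B', hA', hB', i', p', d', hT', hi', hp'⟩ := exists_trunc B 0
  have hB'1 : B'.IsGE 1 := hB'
  -- the part in degree zero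
  have hA'ge : A'.IsGE 0 := by
    rw [isGE_iff]
    intro n hn
    have := hi' n (by lia)
    exact (isZero_of_isGE B 0 n hn).of_iso (asIso ((homologyFunctor (Sh X) n).map i'))
  obtain ⟨Y, ⟨eY⟩, ⟨eY'⟩⟩ := exists_single_iso A' 0
  have hYlc : IsLocConst Y := by
    have h1 := hi' 0 le_rfl
    have h2 := hp 0 (by lia)
    exact isLocConst_of_iso ((asIso ((homologyFunctor (Sh X) 0).map p)) ≪≫
      (asIso ((homologyFunctor (Sh X) 0).map i')).symm ≪≫ eY'.symm) (hK 0)
  have h1 : f ≫ p = 0 := by
    have h2 : (f ≫ p) ≫ p' = 0 :=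
      (TStructure.t (C := Sh X)).zero_of_isLE_of_isGE _ 0 1 (by lia) inferInstance hB'1
    obtain ⟨g, hg⟩ := coyo hT' (f ≫ p) h2
    have h3 : g ≫ eY.hom = 0 := by
      obtain ⟨q, hq⟩ := (singleFunctor (Sh X) 0).map_surjective (g ≫ eY.hom)
      rw [← hq, hom_sky_eq_zero hx (hYlc x) q, Functor.map_zero]
    have h4 : g = 0 := by rw [← cancel_mono eY.hom, h3, zero_comp]
    rw [← hg, h4, zero_comp]
  obtain ⟨g, hg⟩ := coyo hT f h1
  -- the part in degree -1
  have hAge : A.IsGE (-1) := by
    rw [isGE_iff]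
    intro n hn
    have := hi n (by lia)
    exact (isZero_of_isGE K (-1) n hn).of_iso (asIso ((homologyFunctor (Sh X) n).map i))
  obtain ⟨Z, ⟨eZ⟩, ⟨eZ'⟩⟩ := exists_single_iso A (-1)
  have hZlc : IsLocConst Z := by
    have h1 := hi (-1) le_rfl
    exact isLocConst_of_iso ((asIso ((homologyFunctor (Sh X) (-1)).map i)).symm ≪≫ eZ'.symm)
      (hK (-1))
  have h5 : g ≫ eZ.hom = 0 :=
    single_hom_eq_zero_of_ext 1 (-1) (by lia)
      (fun e => ext1_eq_zero (extendable_of_isConstNear hx (hZlc x)) e) _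
  have h6 : g = 0 := by rw [← cancel_mono eZ.hom, h5, zero_comp]
  rw [← hg, h6, zero_comp]

/-- the wrapping of the skyscraper sheaf lives in degrees at most `-2` -/
theorem isLE_of_isWrapping {x : X} (hx : Punct x) {W : DerivedCategory (Sh X)}
    {u : (singleFunctor (Sh X) 0).obj (sky x) ⟶ W} (hu : IsWrapping u) : W.IsLE (-2) := by
  obtain ⟨A, B, hA, hB, i, p, d, hT, hi, hp⟩ := exists_trunc W (-2)
  have hB1 : B.IsGE (-1) := hB
  have hBlc : LocConstCoh B := by
    intro n
    by_cases h : -1 ≤ n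
    · have := hp n h
      exact isLocConst_of_iso (asIso ((homologyFunctor (Sh X) n).map p)) (hu.locConst n)
    · exact fun y => isConstNear_of_isZero (isZero_of_isGE B (-1) n (by lia)) y
  have h1 : u ≫ p = 0 := sky_hom_eq_zero hx hBlc _
  have h2 : p = 0 := (hu.universal B hBlc 0).unique h1 comp_zero
  rw [isLE_iff]
  intro n hn
  have h3 := hp n (by lia)
  have h4 : (homologyFunctor (Sh X) n).map p = 0 := by rw [h2, Functor.map_zero]
  rw [IsZero.iff_id_eq_zero]
  apply (cancel_mono ((homologyFunctor (Sh X) n).map p)).1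
  rw [h4, comp_zero, zero_comp]

/-- the lowest cohomology of the wrapping maps non-trivially to local systems with non-zero
second extension group -/
theorem exists_hom_ne_zero {x : X} (hx : Punct x) {P : Sh X} (hP : IsLocConst P)
    (hE : ∃ e : Ext.{0} (sky x) P 2, e ≠ 0) {W : DerivedCategory (Sh X)}
    {u : (singleFunctor (Sh X) 0).obj (sky x) ⟶ W} (hu : IsWrapping u) :
    ∃ φ : (homologyFunctor (Sh X) (-2)).obj W ⟶ P, φ ≠ 0 := by
  by_contra hcon
  push Not at hcon
  have hW := isLE_of_isWrapping hx hu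
  obtain ⟨A, B, hA, hB, i, p, d, hT, hi, hp⟩ := exists_trunc W (-3)
  have hB2 : B.IsGE (-2) := hB
  have hBle : B.IsLE (-2) := by
    rw [isLE_iff]
    intro n hn
    have := hp n (by lia)
    exact (isZero_of_isLE W (-2) n hn).of_iso (asIso ((homologyFunctor (Sh X) n).map p)).symm
  obtain ⟨Y, ⟨eY⟩, ⟨eY'⟩⟩ := exists_single_iso B (-2)
  have hiso := hp (-2) (by lia)
  let eW : (homologyFunctor (Sh X) (-2)).obj W ≅ Y :=
    (asIso ((homologyFunctor (Sh X) (-2)).map p)) ≪≫ eY'.symm
  have hYP : ∀ q : Y ⟶ P, q = 0 := by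
    intro q
    have := hcon (eW.hom ≫ q)
    rw [← cancel_epi eW.hom, this, comp_zero]
  have hWP : ∀ g : W ⟶ (singleFunctor (Sh X) (-2)).obj P, g = 0 := by
    intro g
    have h1 : i ≫ g = 0 :=
      (TStructure.t (C := Sh X)).zero_of_isLE_of_isGE _ (-3) (-2) (by lia) hA inferInstance
    obtain ⟨g', hg'⟩ := yo hT g h1
    have h2 : eY.inv ≫ g' = 0 := by
      obtain ⟨q, hq⟩ := (singleFunctor (Sh X) (-2)).map_surjective (eY.inv ≫ g')
      rw [← hq, hYP q, Functor.map_zero]
    have h3 : g' = 0 := by rw [← cancel_epi eY.inv, h2, comp_zero]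
    rw [← hg', h3, comp_zero]
  obtain ⟨e, he⟩ := hE
  apply he
  apply ext_eq_zero_of_single.{w, 0} 2 (-2) (by lia)
  intro f
  obtain ⟨g, hg, -⟩ := hu.universal _ (locConstCoh_single hP (-2)) f
  rw [← hg, hWP g, comp_zero]

end W507.Wrap
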