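import Pool.Agent.W507.Wrap.Torus

/-!
# The regular local system on a complex torus: locally constant functions on the universal
covering with finite support in the fibres
-/

open CategoryTheory TopologicalSpace Opposite TopCat Limits
open scoped Topology

namespace W507.Wrap

variable (L : AddSubgroup ℂ)

/-- the fibre of the covering -/
abbrev Fib (y : Tor L) := {z : ℂ // pr L z = y}

variable {L}

open Classical in
/-- the value at a point of the plane -/
noncomputable def ev {U : Opens (Tor L)} (s : ∀ y : U, (Fib L y.1 →₀ ℂ)) (z : ℂ) : ℂ :=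
  if h : pr L z ∈ U then s ⟨pr L z, h⟩ ⟨z, rfl⟩ else 0

theorem ev_of_mem {U : Opens (Tor L)} (s : ∀ y : U, (Fib L y.1 →₀ ℂ)) {z : ℂ}
    (h : pr L z ∈ U) : ev s z = s ⟨pr L z, h⟩ ⟨z, rfl⟩ := dif_pos h

theorem ev_of_notMem {U : Opens (Tor L)} (s : ∀ y : U, (Fib L y.1 →₀ ℂ)) {z : ℂ}
    (h : pr L z ∉ U) : ev s z = 0 := dif_neg h

theorem ev_resFun {U V : Opens (Tor L)} (h : U ≤ V) (s : ∀ y : V, (Fib L y.1 →₀ ℂ)) {z : ℂ}
    (hz : pr L z ∈ U) : ev (resFun (fun y => (Fib L y →₀ ℂ)) h s) z = ev s z := by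
  rw [ev_of_mem _ hz, ev_of_mem _ (h hz)]
  rfl

theorem ev_add {U : Opens (Tor L)} (s t : ∀ y : U, (Fib L y.1 →₀ ℂ)) (z : ℂ) :
    ev (s + t) z = ev s z + ev t z := by
  by_cases h : pr L z ∈ U
  · rw [ev_of_mem _ h, ev_of_mem _ h, ev_of_mem _ h]; rfl
  · rw [ev_of_notMem _ h, ev_of_notMem _ h, ev_of_notMem _ h, add_zero]

theorem ev_smul {U : Opens (Tor L)} (c : ℂ) (s : ∀ y : U, (Fib L y.1 →₀ ℂ)) (z : ℂ) :
    ev (c • s) z = c * ev s z := by
  by_cases h : pr L z ∈ U
  · rw [ev_of_mem _ h, ev_of_mem _ h]; rfl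
  · rw [ev_of_notMem _ h, ev_of_notMem _ h, mul_zero]

theorem ev_zero {U : Opens (Tor L)} (z : ℂ) :
    ev (0 : ∀ y : U, (Fib L y.1 →₀ ℂ)) z = 0 := by
  by_cases h : pr L z ∈ U
  · rw [ev_of_mem _ h]; rfl
  · rw [ev_of_notMem _ h]

theorem ev_ext {U : Opens (Tor L)} {s t : ∀ y : U, (Fib L y.1 →₀ ℂ)}
    (h : ∀ z, pr L z ∈ U → ev s z = ev t z) : s = t := by
  funext y
  ext ⟨z, hz⟩
  obtain ⟨y, hy⟩ := y
  dsimp at hz
  subst hz
  have := h z hy
  rwa [ev_of_mem _ hy, ev_of_mem _ hy] at this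

theorem ev_finite {U : Opens (Tor L)} (s : ∀ y : U, (Fib L y.1 →₀ ℂ)) (z : ℂ) :
    {l : L | ev s (z + l) ≠ 0}.Finite := by
  by_cases h : pr L z ∈ U
  · have h2 : ((s ⟨pr L z, h⟩).support : Set (Fib L (pr L z))).Finite := Finset.finite_toSet _
    refine Set.Finite.of_injOn (f := fun l : L => (⟨z + l, pr_add l.2⟩ : Fib L (pr L z)))
      (t := ((s ⟨pr L z, h⟩).support : Set (Fib L (pr L z)))) ?_ ?_ h2
    · intro l hl
      simp only [Set.mem_ofPred_eq] at hl
      have h3 : pr L (z + l) ∈ U := by rw [pr_add l.2]; exact h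
      rw [ev_of_mem _ h3] at hl
      simp only [Finset.mem_coe, Finsupp.mem_support_iff]
      intro h4
      apply hl
      have key : ∀ (y : Tor L) (hy : y ∈ U) (e : pr L (z + l) = y),
          s ⟨pr L (z + l), h3⟩ ⟨z + l, rfl⟩ = s ⟨y, hy⟩ ⟨z + l, e⟩ := by
        intro y hy e
        subst e
        rfl
      rw [key (pr L z) h (pr_add l.2)]
      exact h4
    · intro l _ l' _ hll
      have := congrArg Subtype.val hll
      simpa using this
  · convert Set.finite_empty
    ext l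
    simp only [Set.mem_ofPred_eq, Set.mem_empty_iff_false, iff_false, not_not]
    apply ev_of_notMem
    rwa [pr_add l.2]

/-- sections from functions -/
noncomputable def mkSec (U : Opens (Tor L)) (f : ℂ → ℂ)
    (hf : ∀ z, pr L z ∈ U → {l : L | f (z + l) ≠ 0}.Finite) : ∀ y : U, (Fib L y.1 →₀ ℂ) :=
  fun y => Finsupp.ofSupportFinite (fun w : Fib L y.1 => f w.1) (by
    obtain ⟨z, hz⟩ := pr_surjective L y.1
    have h := hf z (hz ▸ y.2)
    refine (h.image (fun l : L => (⟨z + l, (pr_add l.2).trans hz⟩ : Fib L y.1))).subset ?_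
    rintro ⟨w, hw⟩ hfw
    have hwz : w - z ∈ L := by
      rw [← pr_eq_iff, hz, hw]
    refine ⟨⟨w - z, hwz⟩, ?_, ?_⟩
    · simp only [Set.mem_ofPred_eq, add_sub_cancel]
      exact hfw
    · apply Subtype.ext
      simp)

theorem ev_mkSec {U : Opens (Tor L)} {f : ℂ → ℂ}
    (hf : ∀ z, pr L z ∈ U → {l : L | f (z + l) ≠ 0}.Finite) {z : ℂ} (hz : pr L z ∈ U) :
    ev (mkSec U f hf) z = f z := by
  rw [ev_of_mem _ hz]
  rfl

variable (L)

/-- all functions with finite support in the fibres -/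
noncomputable def allLoc : LocSub (fun y : Tor L => (Fib L y →₀ ℂ)) := LocSub.all _

/-- locally constant functions on the covering with finite support in the fibres -/
noncomputable def regLoc : LocSub (fun y : Tor L => (Fib L y →₀ ℂ)) where
  S U :=
    { carrier := {s | ∀ z, pr L z ∈ U → ∀ᶠ w in 𝓝 z, ev s w = ev s z}
      add_mem' := by
        intro a b ha hb z hz
        filter_upwards [ha z hz, hb z hz] with w h1 h2
        rw [ev_add, ev_add, h1, h2]
      zero_mem' := by
        intro z hz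
        filter_upwards with w
        rw [ev_zero, ev_zero]
      smul_mem' := by
        intro c a ha z hz
        filter_upwards [ha z hz] with w h1
        rw [ev_smul, ev_smul, h1] }
  res := by
    intro U V h s hs z hz
    have h1 : ∀ᶠ w in 𝓝 z, pr L w ∈ U :=
      (continuous_pr L).continuousAt.preimage_mem_nhds (U.isOpen.mem_nhds hz)
    filter_upwards [hs z (h hz), h1] with w h2 h3
    rw [ev_resFun h s h3, ev_resFun h s hz, h2]
  loc := by
    intro U s hs z hz
    obtain ⟨V, hV, hzV, h⟩ := hs _ hz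
    have h1 : ∀ᶠ w in 𝓝 z, pr L w ∈ V :=
      (continuous_pr L).continuousAt.preimage_mem_nhds (V.isOpen.mem_nhds hzV)
    filter_upwards [h z hzV, h1] with w h2 h3
    rwa [ev_resFun hV s h3, ev_resFun hV s hzV] at h2

/-- the sheaf of all functions on the covering with finite support in the fibres -/
noncomputable def allSh : Sh (Tor L) := (allLoc L).sheaf

/-- the regular local system -/
noncomputable def regSh : Sh (Tor L) := (regLoc L).sheaf

/-- the inclusion -/
noncomputable def regι : regSh L ⟶ allSh L := LocSub.incl (fun _ _ _ => trivial)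

variable {L}

/-- the function on the plane given by a section of the regular local system -/
noncomputable def fnR {U : Opens (Tor L)} (s : (regSh L).1.obj (op U)) : ℂ → ℂ :=
  ev (show (regLoc L).S U from s).1

/-- the function on the plane given by a section of the sheaf of all functions -/
noncomputable def fnA {U : Opens (Tor L)} (s : (allSh L).1.obj (op U)) : ℂ → ℂ :=
  ev (show (allLoc L).S U from s).1

theorem fnR_add {U : Opens (Tor L)} (s t : (regSh L).1.obj (op U)) (z : ℂ) :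
    fnR (s + t) z = fnR s z + fnR t z := ev_add _ _ _

theorem fnR_smul {U : Opens (Tor L)} (c : ℂ) (s : (regSh L).1.obj (op U)) (z : ℂ) :
    fnR (c • s) z = c * fnR s z := ev_smul _ _ _

theorem fnR_zero {U : Opens (Tor L)} (z : ℂ) : fnR (0 : (regSh L).1.obj (op U)) z = 0 :=
  ev_zero _

theorem fnA_sub {U : Opens (Tor L)} (s t : (allSh L).1.obj (op U)) (z : ℂ) :
    fnA (s - t) z = fnA s z - fnA t z := by
  have h : fnA (s - t) z + fnA t z = fnA s z := by
    have h1 : fnA (s - t + t) z = fnA (s - t) z + fnA t z := ev_add _ _ _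
    rw [← h1, sub_add_cancel]
  rw [← h, add_sub_cancel_right]

theorem fnR_res {U V : Opens (Tor L)} (h : U ≤ V) (s : (regSh L).1.obj (op V)) {z : ℂ}
    (hz : pr L z ∈ U) : fnR (res (regSh L) h s) z = fnR s z := ev_resFun h _ hz

theorem fnA_res {U V : Opens (Tor L)} (h : U ≤ V) (s : (allSh L).1.obj (op V)) {z : ℂ}
    (hz : pr L z ∈ U) : fnA (res (allSh L) h s) z = fnA s z := ev_resFun h _ hz

theorem fnR_ext {U : Opens (Tor L)} {s t : (regSh L).1.obj (op U)}
    (h : ∀ z, pr L z ∈ U → fnR s z = fnR t z) : s = t := by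
  apply Subtype.ext
  exact ev_ext h

theorem fnA_ext {U : Opens (Tor L)} {s t : (allSh L).1.obj (op U)}
    (h : ∀ z, pr L z ∈ U → fnA s z = fnA t z) : s = t := by
  apply Subtype.ext
  exact ev_ext h

theorem fnR_finite {U : Opens (Tor L)} (s : (regSh L).1.obj (op U)) (z : ℂ) :
    {l : L | fnR s (z + l) ≠ 0}.Finite := ev_finite _ _

theorem fnR_locConst {U : Opens (Tor L)} (s : (regSh L).1.obj (op U)) {z : ℂ}
    (hz : pr L z ∈ U) : ∀ᶠ w in 𝓝 z, fnR s w = fnR s z :=
  (show (regLoc L).S U from s).2 z hz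

theorem fnA_regι {U : Opens (Tor L)} (s : (regSh L).1.obj (op U)) :
    fnA (sec (regι L) U s) = fnR s := rfl

theorem exists_secR (U : Opens (Tor L)) (f : ℂ → ℂ)
    (hf : ∀ z, pr L z ∈ U → {l : L | f (z + l) ≠ 0}.Finite)
    (hc : ∀ z, pr L z ∈ U → ∀ᶠ w in 𝓝 z, f w = f z) :
    ∃ s : (regSh L).1.obj (op U), ∀ z, pr L z ∈ U → fnR s z = f z := by
  refine ⟨(⟨mkSec U f hf, ?_⟩ : (regLoc L).S U), fun z hz => ev_mkSec hf hz⟩
  intro z hz
  have h1 : ∀ᶠ w in 𝓝 z, pr L w ∈ U :=
    (continuous_pr L).continuousAt.preimage_mem_nhds (U.isOpen.mem_nhds hz)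
  filter_upwards [hc z hz, h1] with w h2 h3
  rw [ev_mkSec hf hz, ev_mkSec hf h3, h2]

theorem exists_secA (U : Opens (Tor L)) (f : ℂ → ℂ)
    (hf : ∀ z, pr L z ∈ U → {l : L | f (z + l) ≠ 0}.Finite) :
    ∃ s : (allSh L).1.obj (op U), ∀ z, pr L z ∈ U → fnA s z = f z :=
  ⟨(⟨mkSec U f hf, trivial⟩ : (allLoc L).S U), fun z hz => ev_mkSec hf hz⟩

/-- sections of the big sheaf which are locally constant come from the regular local system -/
theorem exists_regι_eq {U : Opens (Tor L)} (s : (allSh L).1.obj (op U))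
    (hc : ∀ z, pr L z ∈ U → ∀ᶠ w in 𝓝 z, fnA s w = fnA s z) :
    ∃ t : (regSh L).1.obj (op U), sec (regι L) U t = s :=
  ⟨(⟨(show (allLoc L).S U from s).1, hc⟩ : (regLoc L).S U), rfl⟩

instance : Mono (regι L) := by
  apply mono_of_sec_injective
  intro U s t hst
  apply fnR_ext
  intro z hz
  rw [← fnA_regι, ← fnA_regι, hst]

end W507.Wrap
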