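import Pool.Agent.W507.Wrap.Reg

/-!
# The regular local system is locally constant
-/

open CategoryTheory TopologicalSpace Opposite TopCat Limits
open scoped Topology

namespace W507.Wrap

variable {L : AddSubgroup ℂ}

theorem fnR_const {U : Opens (Tor L)} (s : (regSh L).1.obj (op U)) {C : Set ℂ}
    (hC : IsPreconnected C) (hCU : ∀ z ∈ C, pr L z ∈ U) {z w : ℂ} (hz : z ∈ C) (hw : w ∈ C) :
    fnR s z = fnR s w :=
  const_of_preconnected hC (fnR s)
    (fun z hz => mem_nhdsWithin_of_mem_nhds (fnR_locConst s (hCU z hz))) hz hw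

theorem isPreconnected_ball (c : ℂ) (ρ : ℝ) : IsPreconnected (Metric.ball c ρ) :=
  (convex_ball c ρ).isPreconnected

theorem mem_ball_add {z c l : ℂ} {ρ : ℝ} : z + l ∈ Metric.ball (c + l) ρ ↔ z ∈ Metric.ball c ρ := by
  rw [Metric.mem_ball, Metric.mem_ball, dist_add_right]

variable [DiscreteTopology L]

theorem pr_mem_of_ball {c l : ℂ} {ρ : ℝ} {U : Opens (Tor L)} (hl : l ∈ L)
    (h : disc L c ρ ≤ U) {z : ℂ} (hz : z ∈ Metric.ball (c + l) ρ) : pr L z ∈ U := by
  apply h
  rw [pr_mem_disc_iff]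
  refine ⟨l, hl, ?_⟩
  rw [← mem_ball_add (l := l), sub_add_cancel]
  exact hz

open Classical in
/-- spreading the values over the discs -/
noncomputable def spread (z0 w1 : ℂ) (g : ℂ → ℂ) (z : ℂ) : ℂ :=
  if h : ∃ l ∈ L, z - l ∈ Metric.ball z0 (rad L) then g (w1 + h.choose) else 0

theorem spread_eq {z0 w1 : ℂ} {g : ℂ → ℂ} {z1 l : ℂ} (hl : l ∈ L)
    (hz : z1 ∈ Metric.ball z0 (rad L)) : spread (L := L) z0 w1 g (z1 + l) = g (w1 + l) := by
  classical
  have h : ∃ l' ∈ L, z1 + l - l' ∈ Metric.ball z0 (rad L) := ⟨l, hl, by simpa using hz⟩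
  have h2 : h.choose = l := by
    obtain ⟨h3, h4⟩ := h.choose_spec
    have h5 : pr L (z1 + l - h.choose) = pr L z1 := by
      rw [pr_eq_iff]
      have : z1 - (z1 + l - h.choose) = h.choose - l := by ring
      rw [this]
      exact L.sub_mem h3 hl
    have h6 := pr_injOn h4 hz h5
    have : l - h.choose = 0 := by
      have h7 : z1 + l - h.choose - z1 = 0 := by rw [h6, sub_self]
      rw [← h7]; ring
    exact (sub_eq_zero.mp this).symm
  unfold spread
  rw [dif_pos h, h2]

theorem exists_add_of_mem_disc {z0 z : ℂ} {ρ : ℝ} (h : pr L z ∈ disc L z0 ρ) :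
    ∃ z1 ∈ Metric.ball z0 ρ, ∃ l ∈ L, z = z1 + l := by
  obtain ⟨l, hl, h⟩ := pr_mem_disc_iff.mp h
  exact ⟨z - l, h, l, hl, by ring⟩

theorem regSh_isLocConst : IsLocConst (regSh L) := by
  intro x
  obtain ⟨z0, rfl⟩ := pr_surjective L x
  refine ⟨disc L z0 (rad L), pr_mem_disc (Metric.mem_ball_self (rad_pos L)), ?_⟩
  intro y hy
  obtain ⟨w1, hw1, rfl⟩ := id hy
  change Function.Bijective (grm (regSh L) (pr L w1) hy)
  constructor
  · intro s t hst
    obtain ⟨W, h1, h2, hyW, h⟩ := exists_res_eq_of_grm _ _ hy hy s t hst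
    apply fnR_ext
    intro z hz
    obtain ⟨z1, hz1, l, hl, rfl⟩ := exists_add_of_mem_disc hz
    have e1 : ∀ q : (regSh L).1.obj (op (disc L z0 (rad L))), fnR q (z1 + l) = fnR q (w1 + l) :=
      fun q => fnR_const q (isPreconnected_ball (z0 + l) (rad L))
        (fun z hz => pr_mem_of_ball hl le_rfl hz) (mem_ball_add.mpr hz1) (mem_ball_add.mpr hw1)
    have hW : pr L (w1 + l) ∈ W := by rw [pr_add hl]; exact hyW
    rw [e1, e1, ← fnR_res h1 s hW, ← fnR_res h2 t hW, h]
  · intro τ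
    obtain ⟨W, hyW, s0, rfl⟩ := exists_grm_eq _ _ τ
    obtain ⟨ρ1, hρ1, hρ1', hle⟩ := exists_disc_le (z0 := w1) (W := W) hyW
    obtain ⟨ρ2, hρ2, hball⟩ := Metric.isOpen_iff.mp Metric.isOpen_ball w1 hw1
    let ρ := min ρ1 ρ2
    have hρ : 0 < ρ := lt_min hρ1 hρ2
    have hle' : disc L w1 ρ ≤ W := (disc_mono (min_le_left _ _)).trans hle
    have hballρ : Metric.ball w1 ρ ⊆ Metric.ball z0 (rad L) :=
      (Metric.ball_subset_ball (min_le_right _ _)).trans hball
    obtain ⟨s, hs⟩ := exists_secR (disc L z0 (rad L)) (spread (L := L) z0 w1 (fnR s0)) (by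
      intro z hz
      obtain ⟨z1, hz1, l0, hl0, rfl⟩ := exists_add_of_mem_disc hz
      refine (fnR_finite s0 (w1 + l0)).subset ?_
      intro l hl
      simp only [Set.mem_ofPred_eq] at hl ⊢
      rwa [add_assoc, spread_eq (L.add_mem hl0 l.2) hz1, ← add_assoc] at hl) (by
      intro z hz
      obtain ⟨z1, hz1, l0, hl0, rfl⟩ := exists_add_of_mem_disc hz
      have : ∀ᶠ w in 𝓝 (z1 + l0), w ∈ Metric.ball (z0 + l0) (rad L) :=
        Metric.isOpen_ball.mem_nhds (mem_ball_add.mpr hz1)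
      filter_upwards [this] with w hw
      have hw' : w - l0 ∈ Metric.ball z0 (rad L) := by
        rw [← mem_ball_add (l := l0), sub_add_cancel]; exact hw
      rw [spread_eq hl0 hz1]
      have := spread_eq (w1 := w1) (g := fnR s0) hl0 hw'
      rwa [sub_add_cancel] at this)
    refine ⟨s, ?_⟩
    -- compare on the disc around w1
    have hV : disc L w1 ρ ≤ disc L z0 (rad L) := Set.image_mono hballρ
    have hyV : pr L w1 ∈ disc L w1 ρ := pr_mem_disc (Metric.mem_ball_self hρ)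
    have key : res (regSh L) hV s = res (regSh L) hle' s0 := by
      apply fnR_ext
      intro z hz
      rw [fnR_res hV s hz, fnR_res hle' s0 hz, hs z (hV hz)]
      obtain ⟨v, hv, l, hl, rfl⟩ := exists_add_of_mem_disc hz
      rw [spread_eq hl (hballρ hv)]
      exact fnR_const s0 (isPreconnected_ball (w1 + l) ρ) (fun z hz => pr_mem_of_ball hl hle' hz)
        (mem_ball_add.mpr (Metric.mem_ball_self hρ)) (mem_ball_add.mpr hv)
    have := congrArg (grm (regSh L) (pr L w1) hyV) key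
    rw [grm_res, grm_res] at this
    exact this

end W507.Wrap
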