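import Pool.Agent.W507.Wrap.Reg1

/-!
# There are no non-zero morphisms from constructible sheaves to the regular local system
-/

open CategoryTheory TopologicalSpace Opposite TopCat Limits
open scoped Topology

namespace W507.Wrap

/-- constructible sheaves on a compact Riemann surface: locally constant outside a finite set,
with finite dimensional stalks -/
structure IsCConstr {X : TopCat.{0}} (F : Sh X) : Prop where
  finite : ∃ S : Set X, S.Finite ∧ ∀ x, x ∉ S → IsConstNear F x
  stalk : ∀ x : X, FiniteDimensional ℂ (F.presheaf.stalk x)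

variable {L : AddSubgroup ℂ}

/-- the values of a morphism to the regular local system -/
def VV {F : Sh (Tor L)} (φ : F ⟶ regSh L) (z : ℂ) : Set (L → ℂ) :=
  {g | ∃ (U : Opens (Tor L)) (_ : pr L z ∈ U) (s : F.1.obj (op U)),
    g = fun l : L => fnR (sec φ U s) (z + l)}

theorem VV_eq_range {F : Sh (Tor L)} (φ : F ⟶ regSh L) {z : ℂ} {U : Opens (Tor L)}
    (hU : pr L z ∈ U) (h : Function.Surjective (grm F (pr L z) hU)) :
    VV φ z = Set.range (fun (s : F.1.obj (op U)) => fun l : L => fnR (sec φ U s) (z + l)) := by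
  ext g
  constructor
  · rintro ⟨V, hV, s, rfl⟩
    obtain ⟨s0, hs0⟩ := h (grm F (pr L z) hV s)
    refine ⟨s0, ?_⟩
    obtain ⟨W, h1, h2, hW, he⟩ := exists_res_eq_of_grm F (pr L z) hU hV s0 s hs0
    funext l
    have hWl : pr L (z + l) ∈ W := by rw [pr_add l.2]; exact hW
    have e1 := fnR_res h1 (sec φ U s0) hWl
    have e2 := fnR_res h2 (sec φ V s) hWl
    dsimp only
    rw [← e1, ← e2, ← sec_res, ← sec_res, he]
  · rintro ⟨s, rfl⟩
    exact ⟨U, hU, s, rfl⟩

theorem VV_shift {F : Sh (Tor L)} (φ : F ⟶ regSh L) {z : ℂ} (m : L) {g : L → ℂ}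
    (hg : g ∈ VV φ z) : (fun l => g (m + l)) ∈ VV φ (z + m) := by
  obtain ⟨U, hU, s, rfl⟩ := hg
  refine ⟨U, by rw [pr_add m.2]; exact hU, s, ?_⟩
  funext l
  simp only [AddSubgroup.coe_add, add_assoc]

variable [DiscreteTopology L]

theorem VV_locConst {F : Sh (Tor L)} (φ : F ⟶ regSh L) {z : ℂ}
    (h : IsConstNear F (pr L z)) : ∀ᶠ w in 𝓝 z, VV φ w = VV φ z := by
  obtain ⟨U, hzU, hU⟩ := h.exists
  obtain ⟨ρ, hρ, -, hle⟩ := exists_disc_le hzU
  filter_upwards [Metric.ball_mem_nhds z hρ] with w hw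
  have hwU : pr L w ∈ U := hle (pr_mem_disc hw)
  rw [VV_eq_range φ hzU (hU _ hzU).2, VV_eq_range φ hwU (hU _ hwU).2]
  congr 1
  funext s l
  exact fnR_const (sec φ U s) (isPreconnected_ball (z + l) ρ)
    (fun y hy => pr_mem_of_ball l.2 hle hy) (mem_ball_add.mpr hw)
    (mem_ball_add.mpr (Metric.mem_ball_self hρ))

theorem countable_L : Countable L := by
  have : SeparableSpace L := inferInstance
  exact separableSpace_iff_countable.mp this

theorem countable_preimage {S : Set (Tor L)} (hS : S.Finite) : (pr L ⁻¹' S).Countable := by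
  have := countable_L (L := L)
  have h : pr L ⁻¹' S ⊆ ⋃ x ∈ S, Set.range (fun l : L => (pr_surjective L x).choose + (l : ℂ)) := by
    intro z hz
    simp only [Set.mem_iUnion]
    refine ⟨pr L z, hz, ⟨z - (pr_surjective L (pr L z)).choose, ?_⟩, ?_⟩
    · rw [← pr_eq_iff]
      exact (pr_surjective L (pr L z)).choose_spec
    · simp
  refine Set.Countable.mono h ?_
  exact hS.countable.biUnion (fun x _ => Set.countable_range _)

theorem VV_const {F : Sh (Tor L)} (φ : F ⟶ regSh L) {S : Set (Tor L)} (hS : S.Finite)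
    (hc : ∀ x, x ∉ S → IsConstNear F x) {z w : ℂ} (hz : pr L z ∉ S) (hw : pr L w ∉ S) :
    VV φ z = VV φ w := by
  have h1 : IsConnected (pr L ⁻¹' S)ᶜ :=
    (countable_preimage hS).isConnected_compl_of_one_lt_rank (by
      rw [Complex.rank_real_complex]; exact Cardinal.one_lt_two)
  exact const_of_preconnected h1.isPreconnected (VV φ)
    (fun y hy => mem_nhdsWithin_of_mem_nhds (VV_locConst φ (hc _ hy))) hz hw

theorem VV_finite_support {F : Sh (Tor L)} (φ : F ⟶ regSh L) {z : ℂ}
    (h : IsConstNear F (pr L z)) (hf : FiniteDimensional ℂ (F.presheaf.stalk (pr L z))) :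
    ∃ T : Set L, T.Finite ∧ ∀ g ∈ VV φ z, ∀ l, l ∉ T → g l = 0 := by
  obtain ⟨U, hzU, hU⟩ := h.exists
  have e := LinearEquiv.ofBijective (grm F (pr L z) hzU) (hU _ hzU)
  have hfin : Module.Finite ℂ (F.1.obj (op U)) := Module.Finite.equiv e.symm
  obtain ⟨T0, hT0⟩ := hfin.fg_top
  refine ⟨⋃ b ∈ T0, {l : L | fnR (sec φ U b) (z + l) ≠ 0}, ?_, ?_⟩
  · exact T0.finite_toSet.biUnion (fun b _ => fnR_finite _ _)
  · intro g hg l hl
    rw [VV_eq_range φ hzU (hU _ hzU).2] at hg
    obtain ⟨s, rfl⟩ := hg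
    simp only [Set.mem_iUnion, Set.mem_ofPred_eq, exists_prop, not_exists, not_and, not_not] at hl
    have hs : s ∈ Submodule.span ℂ (T0 : Set (F.1.obj (op U))) := by rw [hT0]; trivial
    dsimp only
    induction hs using Submodule.span_induction with
    | mem x hx => exact hl x hx
    | zero => rw [map_zero]; exact fnR_zero _
    | add x y _ _ hx hy => rw [map_add, fnR_add, hx, hy, add_zero]
    | smul c x _ hx => rw [map_smul, fnR_smul, hx, mul_zero]

theorem hom_regSh_eq_zero [Infinite L] {F : Sh (Tor L)} (hF : IsCConstr F) (φ : F ⟶ regSh L) :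
    φ = 0 := by
  obtain ⟨S, hS, hc⟩ := hF.finite
  have key : ∀ z, pr L z ∉ S → ∀ g ∈ VV φ z, ∀ l, g l = 0 := by
    intro z hz g hg l0
    by_contra hne
    obtain ⟨T, hT, hT2⟩ := VV_finite_support φ (hc _ hz) (hF.stalk _)
    apply Set.infinite_univ (α := L)
    refine hT.subset ?_
    intro l _
    by_contra hl
    -- use the shift by l0 - l
    let m : L := l0 - l
    have hm : pr L (z + m) ∉ S := by rw [pr_add m.2]; exact hz
    have h1 := VV_shift φ m hg
    rw [VV_const φ hS hc hm hz] at h1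
    have h2 := hT2 _ h1 l hl
    apply hne
    have : m + l = l0 := by simp [m]
    rw [← this]
    exact h2
  apply hom_ext_sec
  intro U s
  apply fnR_ext
  intro z hz
  have h0 : sec (0 : F ⟶ regSh L) U s = 0 := rfl
  rw [h0, fnR_zero]
  have hd : Dense (pr L ⁻¹' S)ᶜ := (countable_preimage hS).dense_compl ℝ
  have h1 : ∀ᶠ w in 𝓝 z, pr L w ∈ U :=
    (continuous_pr L).continuousAt.preimage_mem_nhds (U.isOpen.mem_nhds hz)
  obtain ⟨w, hwS, hw1, hw2⟩ := ((mem_closure_iff_frequently.mp (hd z)).and_eventually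
    ((fnR_locConst (sec φ U s) hz).and h1)).exists
  rw [← hw1]
  have := key w hwS _ ⟨U, hw2, s, rfl⟩ 0
  simpa using this

end W507.Wrap
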