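import Pool.Agent.W507.Wrap.Reg2

/-!
# The second extension group of the skyscraper sheaf with the regular local system
-/

open CategoryTheory TopologicalSpace Opposite TopCat Limits Abelian
open scoped Topology

namespace W507.Wrap

variable {L : AddSubgroup ℂ}

/-- the quotient sheaf -/
noncomputable abbrev quoSh (L : AddSubgroup ℂ) : Sh (Tor L) := cokernel (regι L)

/-- the projection to the quotient sheaf -/
noncomputable abbrev quoπ (L : AddSubgroup ℂ) : allSh L ⟶ quoSh L := cokernel.π (regι L)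

theorem quoπ_regι {V : Opens (Tor L)} (q : (regSh L).1.obj (op V)) :
    sec (quoπ L) V (sec (regι L) V q) = 0 := by
  rw [← sec_comp, cokernel.condition]
  rfl

theorem quoπ_eq_zero {V : Opens (Tor L)} (t : (allSh L).1.obj (op V))
    (h : sec (quoπ L) V t = 0) {z : ℂ} (hz : pr L z ∈ V) : ∀ᶠ w in 𝓝 z, fnA t w = fnA t z := by
  obtain ⟨q, hq⟩ := exists_of_sec_eq_zero (shortExact_coker (regι L)).exact
    (S := ShortComplex.mk (regι L) (cokernel.π (regι L)) (cokernel.condition (regι L))) t h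
  have hq' : sec (regι L) V q = t := hq
  rw [← hq', fnA_regι]
  exact fnR_locConst q hz

theorem quoπ_const {V : Opens (Tor L)} (t : (allSh L).1.obj (op V))
    (h : sec (quoπ L) V t = 0) {C : Set ℂ} (hC : IsPreconnected C) (hCV : ∀ z ∈ C, pr L z ∈ V)
    {z w : ℂ} (hz : z ∈ C) (hw : w ∈ C) : fnA t z = fnA t w :=
  const_of_preconnected hC (fnA t)
    (fun z hz => mem_nhdsWithin_of_mem_nhds (quoπ_eq_zero t h (hCV z hz))) hz hw

theorem ne_of_pr_cpl [DiscreteTopology L] {w z : ℂ} (h : pr L w ∈ cpl (pr L z)) : w ≠ z := by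
  rintro rfl
  exact h rfl

theorem allSh_extendable [DiscreteTopology L] (x : Tor L) : Extendable (allSh L) x := by
  classical
  intro W hxW s
  refine ⟨W, le_rfl, hxW, ?_⟩
  obtain ⟨t, ht⟩ := exists_secA W (fun z => if pr L z = x then 0 else fnA s z) (by
    intro z _
    refine (ev_finite (show (allLoc L).S (W ⊓ cpl x) from s).1 z).subset ?_
    intro l hl
    simp only [Set.mem_ofPred_eq] at hl ⊢
    intro h0
    apply hl
    split_ifs
    · rfl
    · exact h0)
  refine ⟨t, ?_⟩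
  apply fnA_ext
  intro z hz
  have hne : ¬ (pr L z = x) := fun e => hz.2 e
  rw [fnA_res inf_le_left t hz, fnA_res _ s hz, ht z hz.1, if_neg hne]

variable [DiscreteTopology L]

/-- the punctured disc without the negative ray -/
noncomputable def cutR (z0 : ℂ) : Opens (Tor L) :=
  ⟨pr L '' (Metric.ball z0 (rad L) ∩ {z | z0.re < z.re ∨ z.im ≠ z0.im}),
    isOpenMap_pr L _ (Metric.isOpen_ball.inter
      ((isOpen_lt continuous_const Complex.continuous_re).union
        (isOpen_ne_fun Complex.continuous_im continuous_const)))⟩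

/-- the punctured disc without the positive ray -/
noncomputable def cutL (z0 : ℂ) : Opens (Tor L) :=
  ⟨pr L '' (Metric.ball z0 (rad L) ∩ {z | z.re < z0.re ∨ z.im ≠ z0.im}),
    isOpenMap_pr L _ (Metric.isOpen_ball.inter
      ((isOpen_lt Complex.continuous_re continuous_const).union
        (isOpen_ne_fun Complex.continuous_im continuous_const)))⟩

theorem cutR_le (z0 : ℂ) : cutR (L := L) z0 ≤ disc L z0 (rad L) ⊓ cpl (pr L z0) := by
  rintro _ ⟨w, ⟨h1, h2⟩, rfl⟩
  refine ⟨⟨w, h1, rfl⟩, fun e => ?_⟩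
  have e' : pr L w = pr L z0 := e
  have := pr_injOn h1 (Metric.mem_ball_self (rad_pos L)) e'
  rw [this] at h2
  rcases h2 with h2 | h2
  · exact lt_irrefl _ h2
  · exact h2 rfl

theorem cutL_le (z0 : ℂ) : cutL (L := L) z0 ≤ disc L z0 (rad L) ⊓ cpl (pr L z0) := by
  rintro _ ⟨w, ⟨h1, h2⟩, rfl⟩
  refine ⟨⟨w, h1, rfl⟩, fun e => ?_⟩
  have e' : pr L w = pr L z0 := e
  have := pr_injOn h1 (Metric.mem_ball_self (rad_pos L)) e'
  rw [this] at h2
  rcases h2 with h2 | h2
  · exact lt_irrefl _ h2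
  · exact h2 rfl

theorem le_cut (z0 : ℂ) :
    disc L z0 (rad L) ⊓ cpl (pr L z0) ≤ cutR (L := L) z0 ⊔ cutL (L := L) z0 := by
  rintro _ ⟨⟨w, hw, rfl⟩, h2⟩
  have hne : w ≠ z0 := ne_of_pr_cpl h2
  by_cases him : w.im = z0.im
  · rcases lt_trichotomy w.re z0.re with h | h | h
    · right
      exact ⟨w, ⟨hw, Or.inl h⟩, rfl⟩
    · exact absurd (Complex.ext h him) hne
    · left
      exact ⟨w, ⟨hw, Or.inl h⟩, rfl⟩
  · left
    exact ⟨w, ⟨hw, Or.inr him⟩, rfl⟩

open Classical in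
/-- the indicator function of the upper half disc -/
noncomputable def upf (L : AddSubgroup ℂ) [DiscreteTopology L] (z0 z : ℂ) : ℂ :=
  if z ∈ Metric.ball z0 (rad L) ∧ z0.im < z.im then 1 else 0

theorem upf_finite (z0 z : ℂ) : {l : L | upf L z0 (z + l) ≠ 0}.Finite := by
  classical
  apply Set.Subsingleton.finite
  intro l hl l' hl'
  simp only [Set.mem_ofPred_eq, upf, ne_eq, ite_eq_right_iff, one_ne_zero, imp_false,
    not_not] at hl hl'
  have h : pr L (z + l) = pr L (z + l') := by rw [pr_add l.2, pr_add l'.2]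
  have := pr_injOn hl.1 hl'.1 h
  exact Subtype.ext (add_left_cancel this)

theorem upf_locConst {z0 z : ℂ} (hR : pr L z ∈ cutR (L := L) z0) (hL : pr L z ∈ cutL (L := L) z0) :
    ∀ᶠ w in 𝓝 z, upf L z0 w = upf L z0 z := by
  classical
  obtain ⟨c, ⟨hc1, hc2⟩, hc⟩ := hR
  obtain ⟨d, ⟨hd1, hd2⟩, hd⟩ := hL
  by_cases hz : z ∈ Metric.ball z0 (rad L)
  · have e1 : c = z := pr_injOn hc1 hz hc
    have e2 : d = z := pr_injOn hd1 hz hd
    rw [e1] at hc2
    rw [e2] at hd2
    have him : z.im ≠ z0.im := by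
      rcases hc2 with h | h
      · rcases hd2 with h' | h'
        · exact absurd (h.trans h') (lt_irrefl _)
        · exact h'
      · exact h
    have hb : ∀ᶠ w in 𝓝 z, w ∈ Metric.ball z0 (rad L) := Metric.isOpen_ball.mem_nhds hz
    rcases lt_or_gt_of_ne him with h | h
    · have h3 : ∀ᶠ w in 𝓝 z, w.im < z0.im :=
        (isOpen_lt Complex.continuous_im continuous_const).mem_nhds h
      filter_upwards [h3] with w hw
      unfold upf
      rw [if_neg (fun hh => lt_asymm hh.2 hw), if_neg (fun hh => lt_asymm hh.2 h)]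
    · have h3 : ∀ᶠ w in 𝓝 z, z0.im < w.im :=
        (isOpen_lt continuous_const Complex.continuous_im).mem_nhds h
      filter_upwards [h3, hb] with w hw hwb
      unfold upf
      rw [if_pos ⟨hwb, hw⟩, if_pos ⟨hz, h⟩]
  · have hl : z - c ∈ L := pr_eq_iff.mp hc
    have hne : z - c ≠ 0 := fun h => hz (by rw [sub_eq_zero.mp h]; exact hc1)
    have hb : ∀ᶠ w in 𝓝 z, w ∈ Metric.ball (z0 + (z - c)) (rad L) := by
      apply Metric.isOpen_ball.mem_nhds
      have : z = c + (z - c) := by ring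
      rw [this]
      simp only [add_sub_cancel_left]
      exact mem_ball_add.mpr hc1
    filter_upwards [hb] with w hw
    have ez : upf L z0 z = 0 := if_neg (fun hh => hz hh.1)
    rw [ez]
    apply if_neg
    rintro ⟨hw1, -⟩
    apply hne
    have hw2 : w - (z - c) ∈ Metric.ball z0 (rad L) := by
      rw [← mem_ball_add (l := z - c), sub_add_cancel]
      exact hw
    have h3 : pr L (w - (z - c)) = pr L w := by
      rw [pr_eq_iff]
      simpa using hl
    have := pr_injOn hw2 hw1 h3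
    have h4 : w - (w - (z - c)) = 0 := by rw [this, sub_self]
    rw [← h4]; ring

theorem exists_ext2_ne_zero (x : Tor L) : ∃ e : Ext (sky x) (regSh L) 2, e ≠ 0 := by
  classical
  by_contra hcon
  push Not at hcon
  have hS := shortExact_coker (regι L)
  have h1 : ∀ e : Ext (sky x) (quoSh L) 1, e = 0 := by
    intro e
    have h2 : e.comp hS.extClass (rfl : 1 + 1 = 2) = 0 := hcon _
    obtain ⟨a, ha⟩ := Ext.covariant_sequence_exact₃ (sky x) hS e rfl h2
    have ha0 : a = 0 := ext1_eq_zero (allSh_extendable x) a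
    rw [← ha, ha0, Ext.zero_comp]
  obtain ⟨z0, rfl⟩ := pr_surjective L x
  -- the section over the punctured disc
  obtain ⟨a1, ha1⟩ := exists_secA (cutR (L := L) z0) (upf L z0) (fun z _ => upf_finite z0 z)
  have hcomp : res (quoSh L) (inf_le_left : cutR (L := L) z0 ⊓ cutL z0 ≤ cutR z0)
      (sec (quoπ L) _ a1) =
      res (quoSh L) (inf_le_right : cutR (L := L) z0 ⊓ cutL z0 ≤ cutL z0) 0 := by
    rw [map_zero, ← sec_res]
    obtain ⟨t, ht⟩ := exists_regι_eq (res (allSh L)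
      (inf_le_left : cutR (L := L) z0 ⊓ cutL z0 ≤ cutR z0) a1) (by
        intro z hz
        have hev : ∀ᶠ w in 𝓝 z, pr L w ∈ cutR (L := L) z0 ⊓ cutL z0 :=
          (continuous_pr L).continuousAt.preimage_mem_nhds
            ((cutR (L := L) z0 ⊓ cutL z0).isOpen.mem_nhds hz)
        filter_upwards [upf_locConst hz.1 hz.2, hev] with w hw1 hw2
        rw [fnA_res _ a1 hw2, fnA_res _ a1 hz, ha1 _ hw2.1, ha1 _ hz.1, hw1])
    rw [← ht, quoπ_regι]
  obtain ⟨b, hb1, hb2⟩ := exists_glue2 (quoSh L) (cutR_le z0) (cutL_le z0) (le_cut z0) _ _ hcomp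
  have hx : pr L z0 ∈ disc L z0 (rad L) := pr_mem_disc (Metric.mem_ball_self (rad_pos L))
  obtain ⟨b', hb'⟩ := extend_of_ext1 h1 (disc L z0 (rad L)) hx b
  obtain ⟨W, hW, hxW, a, ha⟩ := exists_local_lift (quoπ L) b' hx
  obtain ⟨ρ, hρ, hρr, hle⟩ := exists_disc_le hxW
  -- on the part without the positive ray
  have hWL : W ⊓ cutL z0 ≤ W := inf_le_left
  have hWR : W ⊓ cutR z0 ≤ W := inf_le_left
  have kL : sec (quoπ L) _ (res (allSh L) hWL a) = 0 := by
    rw [sec_res, ha, res_res]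
    have e1 : res (quoSh L) (hWL.trans hW) b' =
        res (quoSh L) (inf_le_right.trans (cutL_le z0) : W ⊓ cutL z0 ≤ _)
          (res (quoSh L) inf_le_left b') := by rw [res_res]
    rw [e1, hb', ← res_res (quoSh L) (inf_le_right : W ⊓ cutL z0 ≤ cutL z0) (cutL_le z0), hb2,
      map_zero]
  have kR : sec (quoπ L) _ (res (allSh L) hWR a -
      res (allSh L) (inf_le_right : W ⊓ cutR z0 ≤ cutR z0) a1) = 0 := by
    rw [map_sub, sec_res, ha, res_res, sec_res]
    have e1 : res (quoSh L) (hWR.trans hW) b' =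
        res (quoSh L) (inf_le_right.trans (cutR_le z0) : W ⊓ cutR z0 ≤ _)
          (res (quoSh L) inf_le_left b') := by rw [res_res]
    rw [e1, hb', ← res_res (quoSh L) (inf_le_right : W ⊓ cutR z0 ≤ cutR z0) (cutR_le z0), hb1,
      sub_self]
  -- the four points
  let P : ℝ → ℝ → ℂ := fun u v => z0 + ⟨ρ / 4 * u, ρ / 4 * v⟩
  have hP : ∀ u v : ℝ, |u| ≤ 1 → |v| ≤ 1 → P u v ∈ Metric.ball z0 ρ := by
    intro u v hu hv
    rw [Metric.mem_ball, dist_eq_norm]
    simp only [P, add_sub_cancel_left]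
    refine (Complex.norm_le_abs_re_add_abs_im _).trans_lt ?_
    simp only [abs_mul]
    have : |ρ / 4| = ρ / 4 := abs_of_pos (by positivity)
    rw [this]
    nlinarith [abs_nonneg u, abs_nonneg v]
  have hPre : ∀ u v : ℝ, (P u v).re = z0.re + ρ / 4 * u := fun u v => rfl
  have hPim : ∀ u v : ℝ, (P u v).im = z0.im + ρ / 4 * v := fun u v => rfl
  have hbd : ∀ z ∈ Metric.ball z0 ρ, z ∈ Metric.ball z0 (rad L) := fun z hz =>
    Metric.ball_subset_ball hρr hz
  have mem_W : ∀ z ∈ Metric.ball z0 ρ, pr L z ∈ W := fun z hz => hle (pr_mem_disc hz)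
  -- constancy on the half discs
  have cU : ∀ z w, z ∈ Metric.ball z0 ρ ∩ {c | z0.im < c.im} →
      w ∈ Metric.ball z0 ρ ∩ {c | z0.im < c.im} → fnA a z = fnA a w := by
    intro z w hz hw
    have hmem : ∀ y ∈ Metric.ball z0 ρ ∩ {c | z0.im < c.im}, pr L y ∈ W ⊓ cutL z0 := fun y hy =>
      ⟨mem_W y hy.1, ⟨y, ⟨hbd y hy.1, Or.inr (ne_of_gt hy.2)⟩, rfl⟩⟩
    have := quoπ_const _ kL ((convex_ball z0 ρ).inter (convex_halfSpace_im_gt z0.im)).isPreconnected
      hmem hz hw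
    rwa [fnA_res hWL a (hmem z hz), fnA_res hWL a (hmem w hw)] at this
  have cD : ∀ z w, z ∈ Metric.ball z0 ρ ∩ {c | c.im < z0.im} →
      w ∈ Metric.ball z0 ρ ∩ {c | c.im < z0.im} → fnA a z = fnA a w := by
    intro z w hz hw
    have hmem : ∀ y ∈ Metric.ball z0 ρ ∩ {c | c.im < z0.im}, pr L y ∈ W ⊓ cutL z0 := fun y hy =>
      ⟨mem_W y hy.1, ⟨y, ⟨hbd y hy.1, Or.inr (ne_of_lt hy.2)⟩, rfl⟩⟩
    have := quoπ_const _ kL ((convex_ball z0 ρ).inter (convex_halfSpace_im_lt z0.im)).isPreconnected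
      hmem hz hw
    rwa [fnA_res hWL a (hmem z hz), fnA_res hWL a (hmem w hw)] at this
  have cL : ∀ z w, z ∈ Metric.ball z0 ρ ∩ {c | c.re < z0.re} →
      w ∈ Metric.ball z0 ρ ∩ {c | c.re < z0.re} → fnA a z = fnA a w := by
    intro z w hz hw
    have hmem : ∀ y ∈ Metric.ball z0 ρ ∩ {c | c.re < z0.re}, pr L y ∈ W ⊓ cutL z0 := fun y hy =>
      ⟨mem_W y hy.1, ⟨y, ⟨hbd y hy.1, Or.inl hy.2⟩, rfl⟩⟩
    have := quoπ_const _ kL ((convex_ball z0 ρ).inter (convex_halfSpace_re_lt z0.re)).isPreconnected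
      hmem hz hw
    rwa [fnA_res hWL a (hmem z hz), fnA_res hWL a (hmem w hw)] at this
  have cR : ∀ z w, z ∈ Metric.ball z0 ρ ∩ {c | z0.re < c.re} →
      w ∈ Metric.ball z0 ρ ∩ {c | z0.re < c.re} →
      fnA a z - upf L z0 z = fnA a w - upf L z0 w := by
    intro z w hz hw
    have hmem : ∀ y ∈ Metric.ball z0 ρ ∩ {c | z0.re < c.re}, pr L y ∈ W ⊓ cutR z0 := fun y hy =>
      ⟨mem_W y hy.1, ⟨y, ⟨hbd y hy.1, Or.inl hy.2⟩, rfl⟩⟩
    have := quoπ_const _ kR ((convex_ball z0 ρ).inter (convex_halfSpace_re_gt z0.re)).isPreconnected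
      hmem hz hw
    rwa [fnA_sub, fnA_sub, fnA_res hWR a (hmem z hz), fnA_res hWR a (hmem w hw),
      fnA_res _ a1 (hmem z hz), fnA_res _ a1 (hmem w hw), ha1 _ (hmem z hz).2,
      ha1 _ (hmem w hw).2] at this
  have h11 := hP 1 1 (by simp) (by simp)
  have h1m := hP 1 (-1) (by simp) (by simp)
  have hm1 := hP (-1) 1 (by simp) (by simp)
  have hmm := hP (-1) (-1) (by simp) (by simp)
  have s1 : fnA a (P 1 1) = fnA a (P (-1) 1) := cU _ _
    ⟨h11, by rw [Set.mem_ofPred_eq, hPim]; linarith⟩ ⟨hm1, by rw [Set.mem_ofPred_eq, hPim]; linarith⟩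
  have s2 : fnA a (P (-1) 1) = fnA a (P (-1) (-1)) := cL _ _
    ⟨hm1, by rw [Set.mem_ofPred_eq, hPre]; linarith⟩ ⟨hmm, by rw [Set.mem_ofPred_eq, hPre]; linarith⟩
  have s3 : fnA a (P (-1) (-1)) = fnA a (P 1 (-1)) := cD _ _
    ⟨hmm, by rw [Set.mem_ofPred_eq, hPim]; linarith⟩ ⟨h1m, by rw [Set.mem_ofPred_eq, hPim]; linarith⟩
  have s4 : fnA a (P 1 1) - upf L z0 (P 1 1) = fnA a (P 1 (-1)) - upf L z0 (P 1 (-1)) := cR _ _
    ⟨h11, by rw [Set.mem_ofPred_eq, hPre]; linarith⟩ ⟨h1m, by rw [Set.mem_ofPred_eq, hPre]; linarith⟩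
  have u1 : upf L z0 (P 1 1) = 1 := by
    unfold upf
    rw [if_pos ⟨hbd _ h11, by rw [hPim]; linarith⟩]
  have u2 : upf L z0 (P 1 (-1)) = 0 := by
    unfold upf
    rw [if_neg]
    rintro ⟨-, h⟩
    rw [hPim] at h
    linarith
  rw [u1, u2, s1, s2, s3] at s4
  have : (1 : ℂ) = 0 := by linear_combination -s4
  exact one_ne_zero this

end W507.Wrap
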