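import Pool.Agent.W507.Wrap.Sky

/-!
# Short exact sequences of sheaves and sections
-/

open CategoryTheory TopologicalSpace Opposite TopCat Limits

namespace W507.Wrap

variable {X : TopCat.{0}}

theorem sec_injective_of_mono {F G : Sh X} (f : F ⟶ G) [Mono f] (U : Opens X) :
    Function.Injective (sec f U) := by
  have h1 : Mono ((Sheaf.forget (ModuleCat.{0} ℂ) X).map f) := inferInstance
  have h2 : Mono (((evaluation (Opens X)ᵒᵖ (ModuleCat.{0} ℂ)).obj (op U)).map
      ((Sheaf.forget (ModuleCat.{0} ℂ) X).map f)) := by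
    haveI := h1
    infer_instance
  exact (ModuleCat.mono_iff_injective _).mp h2

theorem exists_of_sec_eq_zero {S : ShortComplex (Sh X)} (hS : S.Exact) [Mono S.f] {U : Opens X}
    (s : S.X₂.1.obj (op U)) (h : sec S.g U s = 0) :
    ∃ t : S.X₁.1.obj (op U), sec S.f U t = s := by
  have h1 := (((Functor.preservesFiniteLimits_tfae (Sheaf.forget (ModuleCat.{0} ℂ) X)).out 1 3
    rfl rfl).mpr inferInstance S ⟨hS, inferInstance⟩).left
  let F := (evaluation (Opens X)ᵒᵖ (ModuleCat.{0} ℂ)).obj (op U)
  have h2 := ((Functor.exact_tfae F).out 1 3 rfl rfl).mpr ⟨inferInstance, inferInstance⟩ _ h1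
  exact (ShortComplex.moduleCat_exact_iff _).mp h2 s h

theorem exists_local_lift {F G : Sh X} (g : F ⟶ G) [Epi g] {U : Opens X}
    (s : G.1.obj (op U)) {x : X} (hx : x ∈ U) :
    ∃ (V : Opens X) (hV : V ≤ U), x ∈ V ∧ ∃ t : F.1.obj (op V), sec g V t = res G hV s := by
  have h := (TopCat.Sheaf.isLocallySurjective_iff_epi g).mpr inferInstance
  obtain ⟨V, hV, ⟨t, ht⟩, hx⟩ := (TopCat.Presheaf.isLocallySurjective_iff g.hom).mp h U s x hx
  exact ⟨V, hV, hx, t, ht⟩

/-- the cokernel short exact sequence of a monomorphism -/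
theorem shortExact_coker {F G : Sh X} (f : F ⟶ G) [Mono f] :
    (ShortComplex.mk f (cokernel.π f) (cokernel.condition f)).ShortExact where
  exact := ShortComplex.exact_cokernel f
  mono_f := by dsimp; infer_instance
  epi_g := by dsimp; infer_instance

end W507.Wrap
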