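import Pool.Agent.W507.Wrap.FunSheaf

/-!
# The skyscraper sheaf as a sheaf of functions
-/

open CategoryTheory TopologicalSpace Opposite TopCat Limits

namespace W507.Wrap

variable {X : TopCat.{0}}

/-- restriction of sections -/
noncomputable def res (F : Sh X) {U V : Opens X} (h : U ≤ V) :
    F.1.obj (op V) →ₗ[ℂ] F.1.obj (op U) := (F.1.map (homOfLE h).op).hom

theorem res_res (F : Sh X) {U V W : Opens X} (h : U ≤ V) (h' : V ≤ W) (s : F.1.obj (op W)) :
    res F h (res F h' s) = res F (h.trans h') s := by
  unfold res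
  have : (homOfLE (h.trans h')).op = (homOfLE h').op ≫ (homOfLE h).op := rfl
  rw [this, Functor.map_comp]
  rfl

theorem res_self (F : Sh X) {U : Opens X} (s : F.1.obj (op U)) :
    res F (le_refl U) s = s := by
  unfold res
  have : (homOfLE (le_refl U)).op = 𝟙 (op U) := rfl
  rw [this, F.1.map_id]
  rfl

/-- the action of a morphism of sheaves on sections -/
noncomputable def sec {F G : Sh X} (f : F ⟶ G) (U : Opens X) :
    F.1.obj (op U) →ₗ[ℂ] G.1.obj (op U) := (f.1.app (op U)).hom

theorem sec_res {F G : Sh X} (f : F ⟶ G) {U V : Opens X} (h : U ≤ V) (s : F.1.obj (op V)) :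
    sec f U (res F h s) = res G h (sec f V s) := by
  have := f.1.naturality (homOfLE h).op
  exact congrArg (fun q => q.hom s) this

theorem sec_comp {F G H : Sh X} (f : F ⟶ G) (g : G ⟶ H) (U : Opens X) (s : F.1.obj (op U)) :
    sec (f ≫ g) U s = sec g U (sec f U s) := rfl

theorem sec_id {F : Sh X} (U : Opens X) (s : F.1.obj (op U)) : sec (𝟙 F) U s = s := rfl

theorem hom_ext_sec {F G : Sh X} (f g : F ⟶ G) (h : ∀ U s, sec f U s = sec g U s) : f = g := by
  apply CategoryTheory.Sheaf.hom_ext
  ext U s
  exact h U.unop s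

/-- two sections with the same restrictions to a cover by two opens are equal -/
theorem eq_of_res2 (F : Sh X) {U V W : Opens X} (hU : U ≤ W) (hV : V ≤ W) (h : W ≤ U ⊔ V)
    (s t : F.1.obj (op W)) (h1 : res F hU s = res F hU t) (h2 : res F hV s = res F hV t) :
    s = t :=
  TopCat.Sheaf.eq_of_locally_eq₂ F (homOfLE hU) (homOfLE hV) h s t h1 h2

/-- local equality implies equality -/
theorem eq_of_loc (F : Sh X) {W : Opens X} (s t : F.1.obj (op W))
    (h : ∀ x ∈ W, ∃ (V : Opens X) (hV : V ≤ W), x ∈ V ∧ res F hV s = res F hV t) : s = t := by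
  apply TopCat.Presheaf.IsSheaf.section_ext F.2
  intro x hx
  obtain ⟨V, hV, hxV, h⟩ := h x hx
  exact ⟨V, hV, hxV, h⟩

/-- gluing two sections -/
theorem exists_glue2 (F : Sh X) {U V W : Opens X} (hU : U ≤ W) (hV : V ≤ W) (h : W ≤ U ⊔ V)
    (s : F.1.obj (op U)) (t : F.1.obj (op V))
    (hst : res F (inf_le_left : U ⊓ V ≤ U) s = res F (inf_le_right : U ⊓ V ≤ V) t) :
    ∃ r : F.1.obj (op W), res F hU r = s ∧ res F hV r = t := by
  let c : Bool → Opens X := fun b => cond b U V
  let sf : ∀ b : Bool, F.1.obj (op (c b)) := fun b => match b with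
    | true => s
    | false => t
  have hc : ∀ b, c b ≤ W := by
    rintro (_ | _)
    · exact hV
    · exact hU
  have hcov : W ≤ iSup c := by
    refine h.trans (sup_le ?_ ?_)
    · exact le_iSup c true
    · exact le_iSup c false
  have hcomp : TopCat.Presheaf.IsCompatible F.1 c sf := by
    rintro (_ | _) (_ | _)
    · rfl
    · have h3 : (V ⊓ U : Opens X) ≤ U ⊓ V := le_of_eq (inf_comm _ _)
      have := congrArg (res F h3) hst
      rw [res_res, res_res] at this
      exact this.symm
    · exact hst
    · rfl
  obtain ⟨r, hr, -⟩ := TopCat.Sheaf.existsUnique_gluing' F c W (fun b => homOfLE (hc b)) hcov sf hcomp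
  exact ⟨r, hr true, hr false⟩

variable [T1Space X]

/-- the complement of a point -/
def cpl (x : X) : Opens X := ⟨{x}ᶜ, isOpen_compl_singleton⟩

theorem mem_cpl {x y : X} : y ∈ cpl x ↔ y ≠ x := Iff.rfl

/-- the skyscraper sheaf at `x` with stalk the complex numbers, as sheaf of functions supported
at `x` -/
def skyLoc (x : X) : LocSub (fun _ : X => ℂ) where
  S U :=
    { carrier := {f | ∀ y : U, y.1 ≠ x → f y = 0}
      add_mem' := by intro a b ha hb y hy; simp [ha y hy, hb y hy]
      zero_mem' := by intro y hy; rfl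
      smul_mem' := by intro c a ha y hy; simp [ha y hy] }
  res h f hf := by intro y hy; exact hf ⟨y.1, h y.2⟩ hy
  loc f hf := by
    intro y hy
    obtain ⟨V, hV, hyV, h⟩ := hf y.1 y.2
    exact h ⟨y.1, hyV⟩ hy

/-- the skyscraper sheaf -/
def sky (x : X) : Sh X := (skyLoc x).sheaf

open Classical in
/-- the generating section over an open set -/
noncomputable def skySec (x : X) (U : Opens X) : (sky x).1.obj (op U) :=
  (⟨fun y => if y.1 = x then 1 else 0, by intro y hy; simp [hy]⟩ : (skyLoc x).S U)

theorem res_skySec (x : X) {U V : Opens X} (h : U ≤ V) :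
    res (sky x) h (skySec x V) = skySec x U := by
  apply Subtype.ext
  rfl

theorem skySec_eq_zero (x : X) {U : Opens X} (h : x ∉ U) : skySec x U = 0 := by
  classical
  apply Subtype.ext
  funext y
  have : y.1 ≠ x := fun e => h (e ▸ y.2)
  change (if y.1 = x then (1:ℂ) else 0) = 0
  simp [this]

/-- every section is a multiple of the generating section -/
theorem sky_eq_smul (x : X) {U : Opens X} (s : (sky x).1.obj (op U)) :
    ∃ c : ℂ, s = c • skySec x U := by
  classical
  by_cases h : x ∈ U
  · refine ⟨(show (skyLoc x).S U from s).1 ⟨x, h⟩, ?_⟩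
    apply Subtype.ext
    funext y
    change (show (skyLoc x).S U from s).1 y =
      (show (skyLoc x).S U from s).1 ⟨x, h⟩ * (if y.1 = x then (1:ℂ) else 0)
    by_cases hy : y.1 = x
    · have : y = ⟨x, h⟩ := Subtype.ext hy
      rw [this]; simp
    · rw [(show (skyLoc x).S U from s).2 y hy]; simp [hy]
  · refine ⟨0, ?_⟩
    apply Subtype.ext
    funext y
    have : y.1 ≠ x := fun e => h (e ▸ y.2)
    rw [zero_smul]
    exact (show (skyLoc x).S U from s).2 y this

theorem sky_hom_ext {x : X} {F : Sh X} (f g : sky x ⟶ F)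
    (h : sec f ⊤ (skySec x ⊤) = sec g ⊤ (skySec x ⊤)) : f = g := by
  apply hom_ext_sec
  intro U s
  obtain ⟨c, rfl⟩ := sky_eq_smul x s
  rw [map_smul, map_smul, ← res_skySec x (le_top : U ≤ ⊤), sec_res, sec_res, h]

/-- the value of a morphism on the generating section vanishes outside of the point -/
theorem sky_hom_res {x : X} {F : Sh X} (f : sky x ⟶ F) :
    res F (le_top : cpl x ≤ ⊤) (sec f ⊤ (skySec x ⊤)) = 0 := by
  rw [← sec_res, res_skySec, skySec_eq_zero x (by simp [mem_cpl]), map_zero]

open Classical in
/-- sections supported at the point give morphisms from the skyscraper sheaf -/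
noncomputable def skyLift {x : X} {F : Sh X} (s : F.1.obj (op ⊤))
    (hs : res F (le_top : cpl x ≤ ⊤) s = 0) : sky x ⟶ F where
  hom :=
    { app := fun U => ModuleCat.ofHom
        { toFun := fun φ => (if h : x ∈ U.unop then (show (skyLoc x).S U.unop from φ).1 ⟨x, h⟩ else 0) •
            res F (le_top : U.unop ≤ ⊤) s
          map_add' := by
            intro a b
            by_cases h : x ∈ U.unop
            · simp only [h, dif_pos]
              exact add_smul _ _ _
            · simp [h]
          map_smul' := by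
            intro c a
            by_cases h : x ∈ U.unop
            · simp only [h, dif_pos]
              exact mul_smul _ _ _
            · simp [h] }
      naturality := by
        intro U V i
        ext φ
        change (if h : x ∈ V.unop then (show (skyLoc x).S U.unop from φ).1 ⟨x, i.unop.le h⟩ else 0) •
            res F (le_top : V.unop ≤ ⊤) s = res F i.unop.le ((if h : x ∈ U.unop then
              (show (skyLoc x).S U.unop from φ).1 ⟨x, h⟩ else 0) • res F (le_top : U.unop ≤ ⊤) s)
        rw [map_smul, res_res]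
        by_cases hV : x ∈ V.unop
        · have hU := i.unop.le hV
          rw [dif_pos hV, dif_pos hU]
        · have hV2 : V.unop ≤ cpl x := by
            intro y hy e
            exact hV (by rw [← (show y = x from e)]; exact hy)
          have : res F (le_top : V.unop ≤ ⊤) s = 0 := by
            rw [← res_res F hV2 le_top, hs, map_zero]
          rw [this, smul_zero, smul_zero] }

theorem skyLift_sec {x : X} {F : Sh X} (s : F.1.obj (op ⊤))
    (hs : res F (le_top : cpl x ≤ ⊤) s = 0) :
    sec (skyLift s hs) ⊤ (skySec x ⊤) = s := by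
  classical
  change (if h : x ∈ (⊤ : Opens X) then (if x = x then (1:ℂ) else 0) else 0) •
    res F (le_top : (⊤ : Opens X) ≤ ⊤) s = s
  rw [dif_pos (by trivial), if_pos rfl, one_smul, res_self]

/-- extension by zero of a section supported at a point -/
theorem exists_ext0 (F : Sh X) {x : X} {U : Opens X} (hx : x ∈ U) (s : F.1.obj (op U))
    (hs : res F (inf_le_left : U ⊓ cpl x ≤ U) s = 0) :
    ∃ t : F.1.obj (op ⊤), res F (le_top : U ≤ ⊤) t = s ∧ res F (le_top : cpl x ≤ ⊤) t = 0 := by
  apply exists_glue2 F
  · intro y _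
    by_cases h : y = x
    · left; rw [h]; exact hx
    · right; exact h
  · rw [hs, map_zero]

end W507.Wrap
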