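import Pool.Agent.W507.Wrap.Final

/-!
# Statement level definitions
-/

open CategoryTheory TopologicalSpace Opposite TopCat Limits DerivedCategory

namespace W507.Wrap

universe w

/-- the category of sheaves of complex vector spaces on `X` -/
def ShC (X : TopCat.{0}) : Type 1 := TopCat.Sheaf (ModuleCat.{0} ℂ) X

noncomputable instance catShC (X : TopCat.{0}) : Category.{0} (ShC X) :=
  inferInstanceAs (Category (TopCat.Sheaf (ModuleCat.{0} ℂ) X))

noncomputable instance abShC (X : TopCat.{0}) : Abelian (ShC X) :=
  inferInstanceAs (Abelian (TopCat.Sheaf (ModuleCat.{0} ℂ) X))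

variable {X : TopCat.{0}} [HasDerivedCategory.{w} (ShC X)]

/-- the cohomology sheaves of an object of the derived category -/
noncomputable def coh (K : DerivedCategory (ShC X)) (n : ℤ) : TopCat.Sheaf (ModuleCat.{0} ℂ) X :=
  (homologyFunctor (ShC X) n).obj K

/-- all cohomology sheaves are locally constant -/
def LocConstCohC (K : DerivedCategory (ShC X)) : Prop := ∀ n : ℤ, IsLocConst (coh K n)

/-- bounded complexes with constructible cohomology sheaves -/
def IsConstructible (K : DerivedCategory (ShC X)) : Prop :=
  (∃ a b : ℤ, ∀ n : ℤ, (n < a ∨ b < n) → IsZero ((homologyFunctor (ShC X) n).obj K)) ∧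
    ∀ n : ℤ, IsCConstr (coh K n)

/-- `u : K ⟶ W` exhibits `W` as the wrapping of `K` into the objects with locally constant
cohomology sheaves, i.e. as the value at `K` of the left adjoint of the inclusion -/
def IsWrap {K W : DerivedCategory (ShC X)} (u : K ⟶ W) : Prop :=
  LocConstCohC W ∧
    ∀ V : DerivedCategory (ShC X), LocConstCohC V → ∀ f : K ⟶ V, ∃! g : W ⟶ V, u ≫ g = f

variable (X) in
/-- the sheaf `F` placed in degree `n` -/
noncomputable def deg (n : ℤ) (F : TopCat.Sheaf (ModuleCat.{0} ℂ) X) : DerivedCategory (ShC X) :=
  (singleFunctor (ShC X) n).obj F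

/-- `W` is not isomorphic to the colimit of a filtered system of constructible complexes -/
def NotIndConstructible (W : DerivedCategory (ShC X)) : Prop :=
  ∀ (J : Type) [SmallCategory J] [IsFiltered J] (E : J ⥤ CochainComplex (ShC X) ℤ)
    (c : Cocone E), Nonempty (IsColimit c) →
    (∀ j, IsConstructible (Q.obj (E.obj j))) → IsEmpty (Q.obj c.pt ≅ W)

/-- `W` is not the tip of a cocone in the derived category over a system of constructible
complexes which induces colimits of the cohomology sheaves -/
def NotIndConstructible' (W : DerivedCategory (ShC X)) : Prop :=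
  ∀ (J : Type) [SmallCategory J] (E : J ⥤ DerivedCategory (ShC X)) (c : Cocone E),
    (∀ n : ℤ, Nonempty (IsColimit ((homologyFunctor (ShC X) n).mapCocone c))) →
    (∀ j, IsConstructible (E.obj j)) → IsEmpty (c.pt ≅ W)

end W507.Wrap
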