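import Pool.Agent.W507.Wrap.Stmt

/-!
# Transfer of the results to the statement level
-/

open CategoryTheory TopologicalSpace Opposite TopCat Limits DerivedCategory

namespace W507.Wrap

universe w

section

variable {L : AddSubgroup ℂ} [DiscreteTopology L] [Infinite L]
  [hD : HasDerivedCategory.{w} (Sh (Tor L))] {W : DerivedCategory (Sh (Tor L))} {n : ℤ}

theorem no_colimit' (hW : ∃ φ : (homologyFunctor (Sh (Tor L)) n).obj W ⟶ regSh L, φ ≠ 0)
    {J : Type} [SmallCategory J] [IsFiltered J] (E : J ⥤ CochainComplex (Sh (Tor L)) ℤ)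
    (c : Cocone E) (hc : Nonempty (IsColimit c))
    (hE : ∀ j, IsCConstrObj (Q.obj (E.obj j))) :
    IsEmpty (Q.obj c.pt ≅ W) := by
  obtain ⟨hc⟩ := hc
  constructor
  intro e
  exact (no_colimit hW E hE).false
    (Q.mapIso ((colimit.isColimit E).coconePointUniqueUpToIso hc) ≪≫ e)

end

section

variable {X : TopCat.{0}} [hD : HasDerivedCategory.{w} (ShC X)]

theorem toCC {K : DerivedCategory (ShC X)} (h : IsConstructible K) : @IsCConstrObj X hD K :=
  @IsCConstrObj.mk X hD K h.1 h.2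

theorem toWr {K W : DerivedCategory (ShC X)} {u : K ⟶ W} (h : IsWrap u) :
    @IsWrapping X hD K W u := @IsWrapping.mk X hD K W u h.1 h.2

end

variable {L : AddSubgroup ℂ} [DiscreteTopology L]
  [hD : HasDerivedCategory.{w} (ShC (Tor L))]

theorem notInd_of_hom [Infinite L] {W : DerivedCategory (ShC (Tor L))} {n : ℤ}
    (hW : ∃ φ : coh W n ⟶ regSh L, φ ≠ 0) : NotIndConstructible W := by
  intro J _ _ E c hc hE
  exact no_colimit' (hD := hD) (W := W) (n := n) hW E c hc (fun j => toCC (hE j))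

theorem notInd'_of_hom [Infinite L] {W : DerivedCategory (ShC (Tor L))} {n : ℤ}
    (hW : ∃ φ : coh W n ⟶ regSh L, φ ≠ 0) : NotIndConstructible' W := by
  intro J _ E c hc hE
  exact @no_cocone L _ hD _ W n hW J _ E c (fun j => toCC (hE j)) (hc n)

theorem hom_of_isWrap {x : Tor L} {W : DerivedCategory (ShC (Tor L))}
    {u : deg (Tor L) 0 (skyM x) ⟶ W} (hu : IsWrap u) :
    ∃ φ : coh W (-2) ⟶ regSh L, φ ≠ 0 :=
  @wrapping_hom_ne_zero L _ hD x W u (toWr hu)

theorem hom_deg_regSh :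
    ∃ φ : coh (deg (Tor L) (-2) (regSh L)) (-2) ⟶ regSh L, φ ≠ 0 :=
  @regSh_single_hom_ne_zero L _ hD

end W507.Wrap
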