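import Pool.Agent.W507.Wrap.LocConst

/-!
# The covering of a complex torus of dimension one by the complex plane
-/

open CategoryTheory TopologicalSpace Opposite TopCat Limits
open scoped Topology

namespace W507.Wrap

variable (L : AddSubgroup ℂ)

/-- the quotient of the complex plane by a subgroup, as a topological space -/
noncomputable abbrev Tor : TopCat.{0} := TopCat.of (ℂ ⧸ L)

/-- the projection -/
noncomputable def pr (z : ℂ) : Tor L := (QuotientAddGroup.mk z : ℂ ⧸ L)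

theorem pr_surjective : Function.Surjective (pr L) := QuotientAddGroup.mk_surjective

theorem continuous_pr : Continuous (pr L) := QuotientAddGroup.continuous_mk

theorem isOpenMap_pr : IsOpenMap (pr L) := QuotientAddGroup.isOpenMap_coe

variable {L} in
theorem pr_eq_iff {z w : ℂ} : pr L z = pr L w ↔ w - z ∈ L := by
  have : pr L z = pr L w ↔ -z + w ∈ L := QuotientAddGroup.eq
  rw [this, neg_add_eq_sub]

variable {L} in
theorem pr_add {z l : ℂ} (hl : l ∈ L) : pr L (z + l) = pr L z := by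
  rw [pr_eq_iff]
  simpa using L.neg_mem hl

variable [DiscreteTopology L]

theorem exists_rad : ∃ r : ℝ, 0 < r ∧ ∀ l ∈ L, ‖l‖ < 2 * r → l = 0 := by
  have hd : IsDiscrete (L : Set ℂ) := ⟨inferInstanceAs (DiscreteTopology L)⟩
  obtain ⟨ε, hε, h⟩ := Metric.exists_ball_inter_eq_singleton_of_mem_discrete hd
    (x := 0) L.zero_mem
  refine ⟨ε / 2, by positivity, fun l hl hn => ?_⟩
  have : l ∈ Metric.ball 0 ε ∩ (L : Set ℂ) := ⟨by simpa [mul_div_cancel₀] using hn, hl⟩
  rw [h] at this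
  simpa using this

/-- a radius of injectivity -/
noncomputable def rad : ℝ := (exists_rad L).choose

theorem rad_pos : 0 < rad L := (exists_rad L).choose_spec.1

variable {L} in
theorem eq_zero_of_norm_lt {l : ℂ} (hl : l ∈ L) (h : ‖l‖ < 2 * rad L) : l = 0 :=
  (exists_rad L).choose_spec.2 l hl h

variable {L} in
theorem pr_injOn {z0 z w : ℂ} (hz : z ∈ Metric.ball z0 (rad L)) (hw : w ∈ Metric.ball z0 (rad L))
    (h : pr L z = pr L w) : z = w := by
  rw [pr_eq_iff] at h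
  have : w - z = 0 := by
    apply eq_zero_of_norm_lt h
    rw [Metric.mem_ball, dist_eq_norm] at hz hw
    calc ‖w - z‖ = ‖(w - z0) - (z - z0)‖ := by ring_nf
      _ ≤ ‖w - z0‖ + ‖z - z0‖ := norm_sub_le _ _
      _ < 2 * rad L := by linarith
  exact (sub_eq_zero.mp this).symm

/-- discs on the torus -/
noncomputable def disc (z0 : ℂ) (ρ : ℝ) : Opens (Tor L) :=
  ⟨pr L '' Metric.ball z0 ρ, isOpenMap_pr L _ Metric.isOpen_ball⟩

variable {L} in
theorem pr_mem_disc {z0 w : ℂ} {ρ : ℝ} (h : w ∈ Metric.ball z0 ρ) : pr L w ∈ disc L z0 ρ :=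
  ⟨w, h, rfl⟩

variable {L} in
theorem pr_mem_disc_iff {z0 w : ℂ} {ρ : ℝ} :
    pr L w ∈ disc L z0 ρ ↔ ∃ l ∈ L, w - l ∈ Metric.ball z0 ρ := by
  constructor
  · rintro ⟨v, hv, h⟩
    refine ⟨w - v, pr_eq_iff.mp h, by simpa using hv⟩
  · rintro ⟨l, hl, h⟩
    refine ⟨w - l, h, ?_⟩
    rw [pr_eq_iff]
    simpa using hl

variable {L} in
theorem exists_disc_le {W : Opens (Tor L)} {z0 : ℂ} (h : pr L z0 ∈ W) :
    ∃ ρ : ℝ, 0 < ρ ∧ ρ ≤ rad L ∧ disc L z0 ρ ≤ W := by
  have h1 : (pr L) ⁻¹' W ∈ 𝓝 z0 := (continuous_pr L).continuousAt.preimage_mem_nhds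
    (W.isOpen.mem_nhds h)
  obtain ⟨ε, hε, hb⟩ := Metric.mem_nhds_iff.mp h1
  refine ⟨min ε (rad L), lt_min hε (rad_pos L), min_le_right _ _, ?_⟩
  rintro _ ⟨w, hw, rfl⟩
  exact hb (Metric.ball_subset_ball (min_le_left _ _) hw)

variable {L} in
theorem disc_mono {z0 : ℂ} {ρ ρ' : ℝ} (h : ρ ≤ ρ') : disc L z0 ρ ≤ disc L z0 ρ' :=
  Set.image_mono (Metric.ball_subset_ball h)

theorem isPreconnected_ball_diff (z0 : ℂ) (ρ : ℝ) :
    IsPreconnected (Metric.ball z0 ρ \ {z0}) := by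
  have : Metric.ball z0 ρ \ {z0} =
      (fun q : ℝ × ℝ => z0 + q.1 * Complex.exp (q.2 * Complex.I)) ''
        (Set.Ioo 0 ρ ×ˢ Set.univ) := by
    ext w
    constructor
    · rintro ⟨h1, h2⟩
      have h2' : w - z0 ≠ 0 := sub_ne_zero.mpr h2
      refine ⟨(‖w - z0‖, (w - z0).arg), ⟨⟨norm_pos_iff.mpr h2', ?_⟩, trivial⟩, ?_⟩
      · rwa [Metric.mem_ball, dist_eq_norm] at h1
      · simp only
        rw [Complex.norm_mul_exp_arg_mul_I]
        ring
    · rintro ⟨⟨t, θ⟩, ⟨⟨ht0, ht⟩, -⟩, rfl⟩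
      constructor
      · rw [Metric.mem_ball, dist_eq_norm]
        simp only [add_sub_cancel_left, norm_mul, Complex.norm_real, Complex.norm_exp_ofReal_mul_I,
          mul_one, Real.norm_eq_abs]
        rw [abs_of_pos ht0]
        exact ht
      · simp only [Set.mem_singleton_iff]
        intro h
        have h1 : (t : ℂ) * Complex.exp (θ * Complex.I) = 0 := by
          simpa using h
        rcases mul_eq_zero.mp h1 with h2 | h2
        · exact ht0.ne' (by exact_mod_cast h2)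
        · exact Complex.exp_ne_zero _ h2
  rw [this]
  apply IsPreconnected.image
  · exact isPreconnected_Ioo.prod isPreconnected_univ
  · apply Continuous.continuousOn
    fun_prop

variable {L} in
theorem disc_inf_cpl {z0 : ℂ} {ρ : ℝ} (hρ : ρ ≤ rad L) :
    ((disc L z0 ρ ⊓ cpl (pr L z0) : Opens (Tor L)) : Set (Tor L)) =
      pr L '' (Metric.ball z0 ρ \ {z0}) := by
  ext y
  constructor
  · rintro ⟨⟨w, hw, rfl⟩, h2⟩
    exact ⟨w, ⟨hw, fun e => h2 (by rw [Set.mem_singleton_iff] at e; rw [e]; rfl)⟩, rfl⟩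
  · rintro ⟨w, ⟨hw, hne⟩, rfl⟩
    refine ⟨⟨w, hw, rfl⟩, fun e => hne ?_⟩
    have e' : pr L w = pr L z0 := e
    exact pr_injOn (Metric.ball_subset_ball hρ hw)
      (Metric.mem_ball_self (rad_pos L)) e'

theorem punct (x : Tor L) : Punct x := by
  obtain ⟨z0, rfl⟩ := pr_surjective L x
  intro W hW
  obtain ⟨ρ, h0, h1, h2⟩ := exists_disc_le hW
  refine ⟨disc L z0 ρ, h2, pr_mem_disc (Metric.mem_ball_self h0), ?_, ?_⟩
  · rw [disc_inf_cpl h1]
    exact (isPreconnected_ball_diff z0 ρ).image _ (continuous_pr L).continuousOn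
  · rw [disc_inf_cpl h1]
    refine ⟨pr L (z0 + ((ρ / 2 : ℝ) : ℂ)), z0 + ((ρ / 2 : ℝ) : ℂ), ⟨?_, ?_⟩, rfl⟩
    · rw [Metric.mem_ball, dist_eq_norm]
      simp only [add_sub_cancel_left, Complex.norm_real, Real.norm_eq_abs]
      rw [abs_of_pos (by positivity)]
      linarith
    · simp only [Set.mem_singleton_iff, add_eq_left, Complex.ofReal_eq_zero]
      positivity

end W507.Wrap
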